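import Pool.Agent.U198.AC.Fd

/-!
# Bounds for one family of slots
-/

set_option autoImplicit false
set_option linter.unusedVariables false

namespace Pool.Agent.U198.AC

open Finset Filter Topology Pool.Agent.N929.AC
open scoped Classical

noncomputable section

variable {α σ : Type} {K : ℕ → Finset α} {len : α → ℕ} {s : ℕ}

/-- the majorant coefficients -/
def aj (K : ℕ → Finset α) (C₀ : ℝ) (p n : ℕ) : ℝ := C₀ * (((K n).card : ℝ) * ((n : ℝ) + 1) ^ p)

theorem aj_nonneg (C₀ : ℝ) (hC : 0 ≤ C₀) (p n : ℕ) : 0 ≤ aj K C₀ p n := by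
  unfold aj
  positivity

/-- grouping by the size -/
theorem grp (hlen : ∀ n w, w ∈ K n → len w = n) (C₀ : ℝ) (hC : 0 ≤ C₀) (p : ℕ) (S : Finset α)
    (M : ℕ) (hS : ∀ w ∈ S, w ∈ K (len w) ∧ M ≤ len w) (x : ℝ) (hx : 0 ≤ x)
    (hsum : Summable (fun n => aj K C₀ p n * x ^ n)) :
    ∑ w ∈ S, (C₀ * ((len w : ℝ) + 1) ^ p) * x ^ len w ≤
      ∑' n, aj K C₀ p (n + M) * x ^ (n + M) := by
  have hs2 : Summable (fun n => aj K C₀ p (n + M) * x ^ (n + M)) :=
    (summable_nat_add_iff (f := fun n => aj K C₀ p n * x ^ n) M).2 hsum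
  have hmap : ∀ w ∈ S, (len w - M) ∈ S.image (fun w => len w - M) := fun w hw =>
    Finset.mem_image_of_mem _ hw
  calc ∑ w ∈ S, (C₀ * ((len w : ℝ) + 1) ^ p) * x ^ len w
      = ∑ k ∈ S.image (fun w => len w - M), ∑ w ∈ S.filter (fun w => len w - M = k),
          (C₀ * ((len w : ℝ) + 1) ^ p) * x ^ len w :=
        (Finset.sum_fiberwise_of_maps_to hmap _).symm
    _ ≤ ∑ k ∈ S.image (fun w => len w - M), aj K C₀ p (k + M) * x ^ (k + M) := by
        refine Finset.sum_le_sum (fun k _ => ?_)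
        have hl : ∀ w ∈ S.filter (fun w => len w - M = k), len w = k + M ∧ w ∈ K (k + M) := by
          intro w hw
          rw [Finset.mem_filter] at hw
          have h1 := hS w hw.1
          have h2 : len w = k + M := by omega
          refine ⟨h2, ?_⟩
          rw [← h2]; exact h1.1
        have hcard : ((S.filter (fun w => len w - M = k)).card : ℝ) ≤ ((K (k + M)).card : ℝ) := by
          exact_mod_cast Finset.card_le_card (fun w hw => (hl w hw).2)
        calc ∑ w ∈ S.filter (fun w => len w - M = k), (C₀ * ((len w : ℝ) + 1) ^ p) * x ^ len w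
            = ∑ w ∈ S.filter (fun w => len w - M = k),
                (C₀ * (((k + M : ℕ) : ℝ) + 1) ^ p) * x ^ (k + M) :=
              Finset.sum_congr rfl (fun w hw => by rw [(hl w hw).1])
          _ = ((S.filter (fun w => len w - M = k)).card : ℝ) *
                ((C₀ * (((k + M : ℕ) : ℝ) + 1) ^ p) * x ^ (k + M)) := by
              rw [Finset.sum_const, nsmul_eq_mul]
          _ ≤ ((K (k + M)).card : ℝ) * ((C₀ * (((k + M : ℕ) : ℝ) + 1) ^ p) * x ^ (k + M)) :=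
              mul_le_mul_of_nonneg_right hcard (by positivity)
          _ = aj K C₀ p (k + M) * x ^ (k + M) := by unfold aj; ring
    _ ≤ ∑' n, aj K C₀ p (n + M) * x ^ (n + M) :=
        hs2.sum_le_tsum _ (fun n _ => mul_nonneg (aj_nonneg C₀ hC p _) (by positivity))

/-- a functional with representations -/
def Rep (D : FD K len s σ) (F : α → ℂ) (C₀ : ℝ) (p : ℕ) : Prop :=
  ∀ w, w ∈ K (len w) → D.Oc w = ∅ →
    RC (D.Sl w) (fun U => F (D.fl w U)) (C₀ * ((len w : ℝ) + 1) ^ p)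

theorem Rep.bd {D : FD K len s σ} {F : α → ℂ} {C₀ : ℝ} {p : ℕ} (hC : 0 ≤ C₀) (h : Rep D F C₀ p)
    {w : α} (hw : w ∈ K (len w)) : ‖F w‖ ≤ C₀ * ((len w : ℝ) + 1) ^ p := by
  have h1 := (h (D.st w) (D.st_K w hw) (D.st_oc w hw)).bd (U := D.Oc w) (by
    rw [D.st_sl w hw]
    exact D.oc_sl w hw)
  rw [D.fl_st w hw] at h1
  refine h1.trans (mul_le_mul_of_nonneg_left ?_ hC)
  refine pow_le_pow_left₀ (by positivity) ?_ p
  have h2 := D.st_len w hw
  have h3 : len (D.st w) ≤ len w := by omega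
  have h4 : ((len (D.st w) : ℕ) : ℝ) ≤ len w := by exact_mod_cast h3
  linarith

theorem bnd1 (hlen : ∀ n w, w ∈ K n → len w = n) {D : FD K len s σ} {F : α → ℂ} {C₀ : ℝ} {p : ℕ}
    (hC : 0 ≤ C₀) (h : Rep D F C₀ p) (N : ℕ) (z : ℂ) (x : ℝ) (hx : 0 ≤ x)
    (hsum : Summable (fun n => aj K C₀ p n * x ^ n)) (hz : ‖z‖ ≤ x) :
    ‖PF D F N z‖ ≤ ∑' n, aj K C₀ p n * x ^ n := by
  obtain ⟨T, hT1, hT2, hT3, -⟩ := expT hlen D N
  rw [hT3]
  have h1 := grp hlen C₀ hC p T 0 (fun w hw => ⟨hT1 w hw, Nat.zero_le _⟩) x hx hsum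
  simp only [Nat.add_zero] at h1
  refine (norm_sum_le _ _).trans (le_trans (Finset.sum_le_sum fun w hw => ?_) h1)
  rw [norm_mul, norm_pow]
  exact mul_le_mul (h.bd hC (hT1 w hw)) (pow_le_pow_left₀ (norm_nonneg _) hz _) (by positivity)
    (by positivity)

theorem bnd2 (hlen : ∀ n w, w ∈ K n → len w = n) {D : FD K len s σ} {F : α → ℂ} {C₀ : ℝ} {p : ℕ}
    (hC : 0 ≤ C₀) (h : Rep D F C₀ p) (N : ℕ) (z : ℂ) (x : ℝ) (hx : 0 ≤ x)
    (hsum : Summable (fun n => aj K C₀ p n * x ^ n)) (c₀ δ : ℝ) (hc₀ : 0 < c₀) (hδ : 0 ≤ δ)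
    (h1 : ‖z‖ ≤ x * Real.exp (c₀ * δ)) (h2 : ‖1 + z ^ s‖ ≤ (1 + x ^ s) * Real.exp (-δ))
    (h3 : Real.exp δ ≤ 1 + x ^ s) :
    ‖PF D F N z‖ ≤ (∑' n, aj K C₀ p n * x ^ n) +
      ∑ m ∈ range (N + 1), ∑ w ∈ (K m).filter (fun w => ((D.Sl w).card : ℝ) < c₀ * m),
        (C₀ * ((m : ℝ) + 1) ^ p) * (‖z‖ * (1 + ‖z‖ ^ s) ^ c₀) ^ m := by
  obtain ⟨T, hT1, hT2, hT3, hT4⟩ := expT hlen D N
  obtain ⟨G, hG⟩ : ∃ G : α → ℝ, G = fun w => C₀ * ((len w : ℝ) + 1) ^ p := ⟨_, rfl⟩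
  have hG0 : ∀ w, 0 ≤ G w := fun w => by rw [hG]; positivity
  have hTx : ∑ w ∈ T, G w * x ^ len w ≤ ∑' n, aj K C₀ p n * x ^ n := by
    have := grp hlen C₀ hC p T 0 (fun w hw => ⟨hT1 w hw, Nat.zero_le _⟩) x hx hsum
    simp only [Nat.add_zero] at this
    rw [hG]
    exact this
  have hreal : ∑ w ∈ Co D N, G w * x ^ len w * (1 + x ^ s) ^ (D.Sl w).card ≤
      ∑ w ∈ T, G w * x ^ len w := by
    rw [← hT4]
    refine sum_le_sum fun w hw => ?_
    have hw' := (mem_Co hlen).1 hw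
    have e3 : (1 + x ^ s) ^ (D.Sl w).card = ∑ U ∈ (D.Sl w).powerset, (x ^ s) ^ U.card := by
      have := Finset.sum_pow_mul_eq_add_pow (x ^ s) 1 (D.Sl w)
      simp only [one_pow, mul_one] at this
      rw [this, add_comm]
    rw [e3, mul_sum]
    refine sum_le_sum fun U hU => ?_
    rw [mem_powerset] at hU
    have e4 := hlen _ _ (D.fl_K w hw'.1.1 hw'.1.2 U hU)
    rw [e4, pow_add, pow_mul, ← mul_assoc]
    have e5 : G w ≤ G (D.fl w U) := by
      rw [hG]
      refine mul_le_mul_of_nonneg_left ?_ hC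
      refine pow_le_pow_left₀ (by positivity) ?_ p
      rw [e4]
      push_cast
      have : (0 : ℝ) ≤ s * (U.card : ℝ) := by positivity
      linarith
    gcongr
  set B : ℝ := ‖z‖ * (1 + ‖z‖ ^ s) ^ c₀ with hB
  have hB0 : 0 ≤ B := by positivity
  have hb1 : 1 ≤ (1 + x ^ s) * Real.exp (-δ) := by
    rw [Real.exp_neg, ← div_eq_mul_inv, le_div_iff₀ (Real.exp_pos _), one_mul]
    exact h3
  have hterm : ∀ w ∈ Co D N, ‖z ^ len w * ∑ U ∈ (D.Sl w).powerset, F (D.fl w U) *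
      (z ^ s) ^ U.card‖ ≤ G w * x ^ len w * (1 + x ^ s) ^ (D.Sl w).card +
      (if ((D.Sl w).card : ℝ) < c₀ * len w then G w * B ^ len w else 0) := by
    intro w hw
    have hw' := (mem_Co hlen).1 hw
    have hr := h w hw'.1.1 hw'.1.2
    have hGw := hG0 w
    have e0 : C₀ * ((len w : ℝ) + 1) ^ p = G w := by rw [hG]
    rw [e0] at hr
    rw [norm_mul, norm_pow]
    have hx1 : 0 ≤ G w * x ^ len w * (1 + x ^ s) ^ (D.Sl w).card := by positivity
    set l := len w with hl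
    set k := (D.Sl w).card with hk
    split_ifs with hlt
    · have e1 : ‖1 + z ^ s‖ ≤ 1 + ‖z‖ ^ s := by
        refine (norm_add_le _ _).trans ?_
        rw [norm_one, norm_pow]
      have hbase : 1 ≤ 1 + ‖z‖ ^ s := by
        have : 0 ≤ ‖z‖ ^ s := by positivity
        linarith
      have e2 := hr.cls (z ^ s) (1 + ‖z‖ ^ s) hbase e1
      have e3 : (1 + ‖z‖ ^ s) ^ k ≤ ((1 + ‖z‖ ^ s) ^ c₀) ^ l := by
        calc (1 + ‖z‖ ^ s) ^ k = (1 + ‖z‖ ^ s) ^ (k : ℝ) := (Real.rpow_natCast _ _).symm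
          _ ≤ (1 + ‖z‖ ^ s) ^ (c₀ * l) := Real.rpow_le_rpow_of_exponent_le hbase hlt.le
          _ = ((1 + ‖z‖ ^ s) ^ c₀) ^ l := by
              rw [Real.rpow_mul (by linarith), Real.rpow_natCast]
      have e4 : ‖z‖ ^ l * ‖∑ U ∈ (D.Sl w).powerset, F (D.fl w U) * (z ^ s) ^ U.card‖ ≤
          G w * B ^ l := by
        calc _ ≤ ‖z‖ ^ l * (G w * (1 + ‖z‖ ^ s) ^ k) := by gcongr
          _ ≤ ‖z‖ ^ l * (G w * ((1 + ‖z‖ ^ s) ^ c₀) ^ l) := by gcongr
          _ = G w * B ^ l := by rw [hB, mul_pow]; ring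
      linarith
    · have hge : c₀ * l ≤ k := not_lt.1 hlt
      rw [add_zero]
      have e2 := hr.cls (z ^ s) _ hb1 h2
      have e1 : ‖z‖ ^ l ≤ (x * Real.exp (c₀ * δ)) ^ l := pow_le_pow_left₀ (norm_nonneg _) h1 _
      have e4 : Real.exp (c₀ * δ) ^ l * Real.exp (-δ) ^ k ≤ 1 := by
        rw [← Real.exp_nat_mul, ← Real.exp_nat_mul, ← Real.exp_add]
        rw [Real.exp_le_one_iff]
        have : c₀ * l * δ ≤ k * δ := mul_le_mul_of_nonneg_right hge hδ
        linarith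
      calc ‖z‖ ^ l * ‖∑ U ∈ (D.Sl w).powerset, F (D.fl w U) * (z ^ s) ^ U.card‖
          ≤ (x * Real.exp (c₀ * δ)) ^ l * (G w * ((1 + x ^ s) * Real.exp (-δ)) ^ k) := by
            gcongr
        _ = G w * x ^ l * (1 + x ^ s) ^ k * (Real.exp (c₀ * δ) ^ l * Real.exp (-δ) ^ k) := by
            rw [mul_pow, mul_pow]; ring
        _ ≤ G w * x ^ l * (1 + x ^ s) ^ k * 1 := mul_le_mul_of_nonneg_left e4 hx1
        _ = _ := mul_one _
  have hsec : ∑ w ∈ Co D N,
      (if ((D.Sl w).card : ℝ) < c₀ * len w then G w * B ^ len w else 0) ≤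
      ∑ m ∈ range (N + 1), ∑ w ∈ (K m).filter (fun w => ((D.Sl w).card : ℝ) < c₀ * m),
        (C₀ * ((m : ℝ) + 1) ^ p) * B ^ m := by
    rw [← Finset.sum_filter]
    have hdisj : Set.PairwiseDisjoint (↑(range (N + 1)) : Set ℕ) (fun m => (K m).filter
        (fun w => ((D.Sl w).card : ℝ) < c₀ * m)) := by
      intro m _ m' _ hne
      rw [Function.onFun, Finset.disjoint_left]
      intro w hw hw'
      rw [Finset.mem_filter] at hw hw'
      exact hne ((hlen m w hw.1).symm.trans (hlen m' w hw'.1))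
    have hinner : ∑ m ∈ range (N + 1), ∑ w ∈ (K m).filter
        (fun w => ((D.Sl w).card : ℝ) < c₀ * m), (C₀ * ((m : ℝ) + 1) ^ p) * B ^ m =
        ∑ w ∈ (range (N + 1)).biUnion (fun m => (K m).filter
        (fun w => ((D.Sl w).card : ℝ) < c₀ * m)), G w * B ^ len w := by
      rw [Finset.sum_biUnion hdisj]
      refine Finset.sum_congr rfl (fun m _ => Finset.sum_congr rfl (fun w hw => ?_))
      rw [hG]
      simp only
      rw [hlen m w (Finset.mem_filter.1 hw).1]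
    rw [hinner]
    refine Finset.sum_le_sum_of_subset_of_nonneg ?_ ?_
    · intro w hw
      rw [Finset.mem_filter] at hw
      obtain ⟨⟨hw1, -⟩, hw2⟩ := (mem_Co hlen).1 hw.1
      rw [Finset.mem_biUnion]
      exact ⟨len w, Finset.mem_range.2 (by omega), Finset.mem_filter.2 ⟨hw1, hw.2⟩⟩
    · intro w _ _
      exact mul_nonneg (hG0 w) (by positivity)
  unfold PF
  refine (norm_sum_le _ _).trans ((Finset.sum_le_sum hterm).trans ?_)
  rw [Finset.sum_add_distrib]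
  exact add_le_add (hreal.trans hTx) hsec

theorem cnv (hlen : ∀ n w, w ∈ K n → len w = n) {D : FD K len s σ} {F : α → ℂ} {C₀ : ℝ} {p : ℕ}
    (hC : 0 ≤ C₀) (h : Rep D F C₀ p) (N : ℕ) (z : ℂ)
    (hsum : Summable (fun n => aj K C₀ p n * ‖z‖ ^ n)) :
    ‖PF D F N z - ∑ n ∈ range (N + 1), (∑ w ∈ K n, F w) * z ^ n‖ ≤
      ∑' n, aj K C₀ p (n + (N + 1)) * ‖z‖ ^ (n + (N + 1)) := by
  obtain ⟨T, hT1, hT2, hT3, -⟩ := expT hlen D N
  have hlow : ∑ n ∈ range (N + 1), (∑ w ∈ K n, F w) * z ^ n =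
      ∑ w ∈ T.filter (fun w => len w ≤ N), F w * z ^ len w := by
    have hset : T.filter (fun w => len w ≤ N) = (range (N + 1)).biUnion K := by
      ext w
      rw [Finset.mem_filter, Finset.mem_biUnion]
      constructor
      · rintro ⟨h1, h2⟩
        exact ⟨len w, Finset.mem_range.2 (by omega), hT1 w h1⟩
      · rintro ⟨m, hm, hw⟩
        rw [Finset.mem_range] at hm
        rw [hlen m w hw]
        exact ⟨hT2 m (by omega) hw, by omega⟩
    have hdisj : Set.PairwiseDisjoint (↑(range (N + 1)) : Set ℕ) K := by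
      intro m _ m' _ hne
      rw [Function.onFun, Finset.disjoint_left]
      intro w hw hw'
      exact hne ((hlen m w hw).symm.trans (hlen m' w hw'))
    rw [hset, Finset.sum_biUnion hdisj]
    refine Finset.sum_congr rfl (fun m _ => ?_)
    rw [Finset.sum_mul]
    refine Finset.sum_congr rfl (fun w hw => ?_)
    rw [hlen m w hw]
  rw [hT3, hlow, ← Finset.sum_filter_add_sum_filter_not T (fun w => len w ≤ N),
    add_sub_cancel_left]
  refine (norm_sum_le _ _).trans (le_trans (Finset.sum_le_sum fun w hw => ?_)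
    (grp hlen C₀ hC p (T.filter (fun w => ¬ len w ≤ N)) (N + 1) (fun w hw => ?_) ‖z‖
      (norm_nonneg z) hsum))
  · rw [norm_mul, norm_pow]
    exact mul_le_mul_of_nonneg_right (h.bd hC (hT1 w (Finset.mem_filter.1 hw).1)) (by positivity)
  · rw [Finset.mem_filter] at hw
    exact ⟨hT1 w hw.1, by omega⟩

end

end Pool.Agent.U198.AC
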