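import Pool.Agent.U198.AC.EnP

/-!
# Functions of maxima over the walk, of the first and of the last vertices
-/

set_option autoImplicit false
set_option linter.unusedVariables false

namespace Pool.Agent.U198.AC

open Finset Filter Topology Pool.Agent.N929.AC Pool.Agent.N929.EG
open scoped Classical

noncomputable section

section crd

variable {σ : Type} {E : Finset σ}

/-- the function `c` of the sets of slots takes few values, and the indicator functions of its
values have representations -/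
def Crd (E : Finset σ) {β : Type} (c : Finset σ → β) (N : ℝ) : Prop :=
  ∃ (V : Finset β) (M : ℝ), 0 ≤ M ∧ (V.card : ℝ) * M ≤ N ∧ (∀ U ⊆ E, c U ∈ V) ∧
    ∀ v, Rp E (fun U => if c U = v then (1 : ℝ) else 0) M

theorem Crd.nonneg {β : Type} {c : Finset σ → β} {N : ℝ} (h : Crd E c N) : 0 ≤ N := by
  obtain ⟨V, M, h1, h2, -⟩ := h
  exact (by positivity : (0 : ℝ) ≤ (V.card : ℝ) * M).trans h2

theorem Crd.mono {β : Type} {c : Finset σ → β} {N N' : ℝ} (h : Crd E c N) (hN : N ≤ N') :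
    Crd E c N' := by
  obtain ⟨V, M, h1, h2, h3⟩ := h
  exact ⟨V, M, h1, h2.trans hN, h3⟩

/-- functions of a coordinate -/
theorem Crd.comp {β : Type} {c : Finset σ → β} {N : ℝ} (h : Crd E c N) (φ : β → ℝ) {B : ℝ}
    (hB : 0 ≤ B) (hφ : ∀ U ⊆ E, |φ (c U)| ≤ B) : Rp E (fun U => φ (c U)) (B * N) := by
  obtain ⟨V, M, h1, h2, h3, h4⟩ := h
  have h5 : Rp E (fun U => ∑ v ∈ V, (if ∃ U ⊆ E, c U = v then φ v else 0) *
      (if c U = v then (1 : ℝ) else 0)) (∑ v ∈ V, B * M) := by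
    refine Rp.sum (E := E) V (M := fun _ => B * M) fun v hv => ?_
    refine ((h4 v).smul _).mono (mul_le_mul_of_nonneg_right ?_ h1)
    split_ifs with h
    · obtain ⟨U, hU, rfl⟩ := h
      exact hφ U hU
    · rw [abs_zero]
      exact hB
  rw [sum_const, nsmul_eq_mul] at h5
  refine (h5.mono ?_).congr fun U hU => ?_
  · calc (V.card : ℝ) * (B * M) = B * (V.card * M) := by ring
      _ ≤ B * N := mul_le_mul_of_nonneg_left h2 hB
  · have e : ∀ v ∈ V, (if ∃ U ⊆ E, c U = v then φ v else 0) * (if c U = v then (1 : ℝ) else 0) =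
        if c U = v then φ v else 0 := by
      intro v _
      split_ifs with h h' h'
      · rw [mul_one]
      · rw [mul_zero]
      · exact absurd ⟨U, hU, h'⟩ h
      · rw [mul_zero]
    rw [sum_congr rfl e, sum_ite_eq V (c U), if_pos (h3 U hU)]

theorem Crd.pair {β γ : Type} {c : Finset σ → β} {d : Finset σ → γ} {N N' : ℝ}
    (h : Crd E c N) (h' : Crd E d N') : Crd E (fun U => (c U, d U)) (N * N') := by
  have hN := h.nonneg
  obtain ⟨V, M, h1, h2, h3, h4⟩ := h
  obtain ⟨V', M', h1', h2', h3', h4'⟩ := h'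
  refine ⟨V ×ˢ V', M * M', mul_nonneg h1 h1', ?_, fun U hU => ?_, fun v => ?_⟩
  · rw [card_product]
    push_cast
    calc (V.card : ℝ) * V'.card * (M * M') = (V.card * M) * (V'.card * M') := by ring
      _ ≤ N * N' := mul_le_mul h2 h2' (by positivity) hN
  · rw [mem_product]
    exact ⟨h3 U hU, h3' U hU⟩
  · refine ((h4 v.1).mul (h4' v.2)).congr fun U hU => ?_
    by_cases e1 : c U = v.1
    · by_cases e2 : d U = v.2
      · rw [if_pos e1, if_pos e2, if_pos (Prod.ext e1 e2), mul_one]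
      · rw [if_neg e2, mul_zero, if_neg fun h => e2 (by rw [← h])]
    · rw [if_neg e1, zero_mul, if_neg fun h => e1 (by rw [← h])]

theorem rp_prodI {ι : Type} {M : ℝ} (s : Finset ι) (f : ι → Finset σ → ℝ)
    (h : ∀ i, Rp E (f i) (M)) : Rp E (fun U => ∏ i ∈ s, f i U) (M ^ s.card) := by
  induction s using Finset.induction_on with
  | empty =>
    simp only [prod_empty, card_empty, pow_zero]
    exact (Rp.const (E := E) 1).mono (by simp)
  | insert i s hi ih =>
    rw [card_insert_of_notMem hi, pow_succ, mul_comm]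
    refine ((h i).mul ih).congr fun U _ => ?_
    rw [prod_insert hi]

theorem Crd.pi {k : ℕ} {β : Type} {c : Fin k → Finset σ → β} {N M : ℝ} (hM : 0 ≤ M)
    (V : Fin k → Finset β) (h1 : ∀ i, ((V i).card : ℝ) * M ≤ N)
    (h2 : ∀ i, ∀ U ⊆ E, c i U ∈ V i)
    (h3 : ∀ i v, Rp E (fun U => if c i U = v then (1 : ℝ) else 0) M) :
    Crd E (fun U i => c i U) (N ^ k) := by
  refine ⟨Fintype.piFinset V, M ^ k, by positivity, ?_, fun U hU => ?_, fun v => ?_⟩
  · rw [Fintype.card_piFinset]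
    push_cast
    have e : M ^ k = ∏ i : Fin k, M := by simp
    rw [e, ← prod_mul_distrib]
    refine (prod_le_prod (fun i _ => by positivity) fun i _ => h1 i).trans ?_
    simp
  · rw [Fintype.mem_piFinset]
    exact fun i => h2 i U hU
  · have h4 := rp_prodI (E := E) (univ : Finset (Fin k))
      (fun i U => if c i U = v i then (1 : ℝ) else 0) (fun i => h3 i (v i))
    rw [card_univ, Fintype.card_fin] at h4
    refine h4.congr fun U _ => ?_
    by_cases h : (fun i => c i U) = v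
    · rw [if_pos h]
      symm
      exact prod_eq_one fun i _ => if_pos (congrFun h i)
    · rw [if_neg h]
      have h5 : ∃ i, c i U ≠ v i := by
        by_contra hc
        push Not at hc
        exact h (funext hc)
      obtain ⟨i, hi⟩ := h5
      symm
      exact prod_eq_zero (mem_univ i) (if_neg hi)

/-- a coordinate which depends only on few slots -/
theorem crd_loc {β : Type} {c : Finset σ → β} {P : σ → Prop} {n₀ : ℕ}
    (h1 : ∀ U ⊆ E, c U = c (U.filter P)) (h2 : (E.filter P).card ≤ n₀) : Crd E c (8 ^ n₀) := by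
  refine ⟨(E.filter P).powerset.image c, 4 ^ n₀, by positivity, ?_, fun U hU => ?_, fun v => ?_⟩
  · have h3 : (((E.filter P).powerset.image c).card : ℝ) ≤ 2 ^ n₀ := by
      have h4 : ((E.filter P).powerset.image c).card ≤ 2 ^ n₀ := by
        refine card_image_le.trans ?_
        rw [card_powerset]
        exact Nat.pow_le_pow_right (by norm_num) h2
      exact_mod_cast h4
    calc (((E.filter P).powerset.image c).card : ℝ) * 4 ^ n₀ ≤ 2 ^ n₀ * 4 ^ n₀ :=
          mul_le_mul_of_nonneg_right h3 (by positivity)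
      _ = 8 ^ n₀ := by rw [← mul_pow]; norm_num
  · rw [mem_image]
    exact ⟨U.filter P, mem_powerset.2 (filter_subset_filter _ hU), (h1 U hU).symm⟩
  · have h3 := rp_loc (E := E) (P := P) (M := 1)
      (Φ := fun U => if c U = v then (1 : ℝ) else 0)
      (fun U hU => by simp only [h1 U hU])
      (fun U _ => by split_ifs <;> simp)
    refine h3.mono ?_
    rw [one_mul]
    exact pow_le_pow_right₀ (by norm_num) h2

/-- a maximum -/
theorem rp_max {m : Finset σ → ℝ} {b : ℝ} {a : σ → ℝ}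
    (hm : ∀ U ⊆ E, ∀ t, m U ≤ t ↔ b ≤ t ∧ ∀ q ∈ U, a q ≤ t) (v : ℝ) :
    Rp E (fun U => if m U = v then (1 : ℝ) else 0) 2 := by
  have hlt : ∀ U ⊆ E, (m U < v ↔ b < v ∧ ∀ q ∈ U, a q < v) := by
    intro U hU
    constructor
    · intro h
      have h1 := (hm U hU (m U)).1 le_rfl
      exact ⟨h1.1.trans_lt h, fun q hq => (h1.2 q hq).trans_lt h⟩
    · rintro ⟨h1, h2⟩
      have hne : (insert b (U.image a)).Nonempty := insert_nonempty _ _
      have h3 : (insert b (U.image a)).max' hne < v := by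
        rw [max'_lt_iff]
        intro y hy
        rw [mem_insert, mem_image] at hy
        rcases hy with rfl | ⟨q, hq, rfl⟩
        · exact h1
        · exact h2 q hq
      refine lt_of_le_of_lt ((hm U hU _).2 ⟨?_, fun q hq => ?_⟩) h3
      · exact le_max' _ _ (mem_insert_self _ _)
      · exact le_max' _ _ (mem_insert_of_mem (mem_image_of_mem _ hq))
  have r1 : Rp E (fun U => if m U ≤ v then (1 : ℝ) else 0) 1 := by
    by_cases hb : b ≤ v
    · refine (Rp.ind (E := E) (T := E.filter (fun q => v < a q)) (filter_subset _ _)).congr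
        fun U hU => ?_
      have e : m U ≤ v ↔ Disjoint (E.filter (fun q => v < a q)) U := by
        rw [hm U hU, disjoint_left]
        constructor
        · rintro ⟨-, h⟩ q hq hqU
          exact absurd (h q hqU) (not_le.2 (mem_filter.1 hq).2)
        · intro h
          refine ⟨hb, fun q hq => ?_⟩
          by_contra hc
          exact h (mem_filter.2 ⟨hU hq, not_le.1 hc⟩) hq
      by_cases h : m U ≤ v
      · rw [if_pos h, if_pos (e.1 h)]
      · rw [if_neg h, if_neg fun h' => h (e.2 h')]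
    · refine (Rp.zero.mono zero_le_one).congr fun U hU => ?_
      rw [if_neg fun h => hb ((hm U hU v).1 h).1]
  have r2 : Rp E (fun U => if m U < v then (1 : ℝ) else 0) 1 := by
    by_cases hb : b < v
    · refine (Rp.ind (E := E) (T := E.filter (fun q => v ≤ a q)) (filter_subset _ _)).congr
        fun U hU => ?_
      have e : m U < v ↔ Disjoint (E.filter (fun q => v ≤ a q)) U := by
        rw [hlt U hU, disjoint_left]
        constructor
        · rintro ⟨-, h⟩ q hq hqU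
          exact absurd (h q hqU) (not_lt.2 (mem_filter.1 hq).2)
        · intro h
          refine ⟨hb, fun q hq => ?_⟩
          by_contra hc
          exact h (mem_filter.2 ⟨hU hq, not_lt.1 hc⟩) hq
      by_cases h : m U < v
      · rw [if_pos h, if_pos (e.1 h)]
      · rw [if_neg h, if_neg fun h' => h (e.2 h')]
    · refine (Rp.zero.mono zero_le_one).congr fun U hU => ?_
      rw [if_neg fun h => hb ((hlt U hU).1 h).1]
  have r3 := r1.add (r2.smul (-1))
  refine (r3.mono (by norm_num)).congr fun U _ => ?_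
  rcases lt_trichotomy (m U) v with h | h | h
  · rw [if_neg h.ne, if_pos h.le, if_pos h]; ring
  · rw [if_pos h, if_pos h.le, if_neg h.ge.not_gt]; ring
  · rw [if_neg h.ne', if_neg (not_le.2 h), if_neg h.le.not_gt]; ring

/-- several maxima -/
theorem crd_max {k : ℕ} {m : Fin k → Finset σ → ℝ} {b : Fin k → ℝ} {a : Fin k → σ → ℝ}
    (hm : ∀ i, ∀ U ⊆ E, ∀ t, m i U ≤ t ↔ b i ≤ t ∧ ∀ q ∈ U, a i q ≤ t) :
    Crd E (fun U i => m i U) ((2 * ((E.card : ℝ) + 1)) ^ k) := by
  refine Crd.pi (M := 2) (by norm_num) (fun i => insert (b i) (E.image (a i))) (fun i => ?_)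
    (fun i U hU => ?_) (fun i v => rp_max (hm i) v)
  · have h1 : ((insert (b i) (E.image (a i))).card : ℝ) ≤ (E.card : ℝ) + 1 := by
      have h2 : (insert (b i) (E.image (a i))).card ≤ E.card + 1 :=
        (card_insert_le _ _).trans (Nat.add_le_add_right card_image_le _)
      exact_mod_cast h2
    linarith
  · have h1 := (hm i U hU (m i U)).1 le_rfl
    have hne : (insert (b i) (U.image (a i))).Nonempty := insert_nonempty _ _
    have h2 : m i U = (insert (b i) (U.image (a i))).max' hne := by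
      apply le_antisymm
      · refine (hm i U hU _).2 ⟨?_, fun q hq => ?_⟩
        · exact le_max' _ _ (mem_insert_self _ _)
        · exact le_max' _ _ (mem_insert_of_mem (mem_image_of_mem _ hq))
      · rw [max'_le_iff]
        intro y hy
        rw [mem_insert, mem_image] at hy
        rcases hy with rfl | ⟨q, hq, rfl⟩
        · exact h1.1
        · exact h1.2 q hq
    rw [h2]
    have h3 := max'_mem _ hne
    rw [mem_insert, mem_image] at h3 ⊢
    rcases h3 with h3 | ⟨q, hq, h3⟩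
    · exact Or.inl h3
    · exact Or.inr ⟨q, hU hq, h3⟩

end crd

section un

variable {α σ : Type} {Y : TS α σ} {L : Finset σ} {st : α → α} {fl : α → Finset σ → α}

/-- additive dependence on the occupied slots -/
theorem fl_un (h : Fill Y L st fl) {w : α} (hw : Em Y L w) {V : Type} (F : α → V → Prop)
    (g : σ → V → Prop)
    (hF : ∀ w', w' ∈ Y.K (Y.len w') → ∀ q ∈ Y.S w', ∀ x, F (Y.ins w' q) x ↔ F w' x ∨ g q x) :
    ∀ U : Finset σ, U ⊆ Pool.Agent.N929.EG.Sl Y L w → ∀ x,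
      F (fl w U) x ↔ F w x ∨ ∃ q ∈ U, g q x := by
  intro U
  induction U using Finset.induction_on with
  | empty =>
    intro _ x
    rw [h.fl_empty w hw]
    simp
  | insert q U hq ih =>
    intro hU x
    have h1 : U ⊆ Pool.Agent.N929.EG.Sl Y L w := fun x hx => hU (mem_insert_of_mem hx)
    have h2 : q ∈ Pool.Agent.N929.EG.Sl Y L w := hU (mem_insert_self q U)
    obtain ⟨h3, h4⟩ := h.fl_insert w U q hw h1 h2 hq
    have h5 := h.fl_K w U hw h1
    have h6 := Y.len_K _ _ h5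
    rw [h4, hF _ (by rw [h6]; exact h5) q h3 x, ih h1 x]
    constructor
    · rintro ((h | ⟨q', hq', h⟩) | h)
      · exact Or.inl h
      · exact Or.inr ⟨q', mem_insert_of_mem hq', h⟩
      · exact Or.inr ⟨q, mem_insert_self _ _, h⟩
    · rintro (h | ⟨q', hq', h⟩)
      · exact Or.inl (Or.inl h)
      · rcases mem_insert.1 hq' with rfl | hq''
        · exact Or.inr h
        · exact Or.inl (Or.inr ⟨q', hq'', h⟩)

end un

section win

variable {Ver : Type} {X : Geo Ver} {A : Ver → Ver → Prop} {Z : Rul X A}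
  {Y : TS (List Ver) (List Ver × List Ver)}

/-- the maximum of `h` over the vertices of the walk -/
def lmx (h : Ver → ℝ) (w : List Ver) : ℝ := sSup (h '' {x | x ∈ w})

theorem lmx_le {h : Ver → ℝ} {w : List Ver} (hw : w ≠ []) (t : ℝ) :
    lmx h w ≤ t ↔ ∀ x ∈ w, h x ≤ t := by
  unfold lmx
  have hfin : (h '' {x | x ∈ w}).Finite := (List.finite_toSet w).image h
  have hne : (h '' {x | x ∈ w}).Nonempty := by
    obtain ⟨x, hx⟩ := List.exists_mem_of_ne_nil w hw
    exact ⟨h x, x, hx, rfl⟩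
  rw [csSup_le_iff hfin.bddAbove hne]
  constructor
  · intro h1 x hx
    exact h1 _ ⟨x, hx, rfl⟩
  · rintro h1 _ ⟨x, hx, rfl⟩
    exact h1 x hx

/-- the vertices of a filling, if the moves only add vertices -/
theorem mem_fl (W : Win Z Y) (hZ : ∀ U U', Z.T U U' → ∀ x ∈ U, x ∈ U')
    {L : Finset (List Ver × List Ver)} {st : List Ver → List Ver}
    {fl : List Ver → Finset (List Ver × List Ver) → List Ver} (hfl : Fill Y L st fl)
    {w : List Ver} (hw : Em Y L w) :
    ∀ U : Finset (List Ver × List Ver), U ⊆ Pool.Agent.N929.EG.Sl Y L w → ∀ x,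
      x ∈ fl w U ↔ x ∈ w ∨ ∃ q ∈ U, x ∈ q.2 := by
  refine fl_un hfl hw (fun w x => x ∈ w) (fun q x => x ∈ q.2) fun w' hw' q hq x => ?_
  have h5 := (W.S _ q).1 hq
  have h6 := ((W.K _ _).1 hw').2
  obtain ⟨L', R, e1, e2, -⟩ := rep_all (Z.pair _ _ h5.1) h6 h5.2
  have h7 := hZ _ _ h5.1
  rw [W.ins, e2, e1]
  simp only [List.mem_append]
  constructor
  · rintro ((h | h) | h)
    · exact Or.inl (Or.inl (Or.inl h))
    · exact Or.inr h
    · exact Or.inl (Or.inr h)
  · rintro (((h | h) | h) | h)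
    · exact Or.inl (Or.inl h)
    · exact Or.inl (Or.inr (h7 x h))
    · exact Or.inr h
    · exact Or.inl (Or.inr h)

theorem card_Sl (W : Win Z Y) {L : Finset (List Ver × List Ver)} {n : ℕ} {w : List Ver}
    (hw : w ∈ Y.K n) :
    (Pool.Agent.N929.EG.Sl Y L w).card ≤ (n + 1) * Pool.Agent.N169.EG.c0 Z := by
  have h1 : Pool.Agent.N929.EG.Sl Y L w ⊆ w.toFinset.biUnion (Pool.Agent.N169.EG.cand Z) := by
    intro q hq
    obtain ⟨h2, h3⟩ := hd_Sl W hq
    rw [mem_biUnion]
    refine ⟨hd X q, List.mem_toFinset.2 h3, ?_⟩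
    exact Pool.Agent.N169.EG.mem_cand Z h2
      (List.mem_append_left _ (hd_mem (Z.pair _ _ h2)).1)
  refine (card_le_card h1).trans (card_biUnion_le.trans ?_)
  refine (sum_le_sum fun p _ => Pool.Agent.N169.EG.card_cand Z p).trans ?_
  rw [sum_const, smul_eq_mul]
  refine Nat.mul_le_mul_right _ ?_
  rw [← ((W.K n w).1 hw).1]
  exact List.toFinset_card_le w

/-- **functions of maxima, of the first and of the last vertices** -/
theorem mx_rep (W : Win Z Y) (hZ : ∀ U U', Z.T U U' → ∀ x ∈ U, x ∈ U') (k m r p : ℕ) (C₁ : ℝ) :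
    ∃ C₀ : ℝ, 0 ≤ C₀ ∧ ∃ p₀ : ℕ, ∀ (h : Fin r → Ver → ℝ)
      (φ : (Fin r → ℝ) → List Ver → List Ver → ℝ),
      (∀ n, ∀ w ∈ Y.K n,
        |φ (fun i => lmx (h i) w) (w.take (k + 1)) (w.reverse.take (m + 1))| ≤
          C₁ * ((n : ℝ) + 1) ^ p) →
      ∀ L, Fam Y L → ∀ st fl, Fill Y L st fl → ∀ w, Em Y L w →
      Rp (Pool.Agent.N929.EG.Sl Y L w)
        (fun U => φ (fun i => lmx (h i) (fl w U)) ((fl w U).take (k + 1))
          ((fl w U).reverse.take (m + 1)))
        (C₀ * ((Y.len w : ℝ) + 1) ^ p₀) := by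
  obtain ⟨c, hc⟩ : ∃ c : ℕ, c = (X.g k + X.g m) * Pool.Agent.N169.EG.c0 Z := ⟨_, rfl⟩
  obtain ⟨d, hd⟩ : ∃ d : ℕ, d = Pool.Agent.N169.EG.c0 Z := ⟨_, rfl⟩
  refine ⟨|C₁| * (1 + (Y.s : ℝ) * d) ^ p * ((2 * ((d : ℝ) + 1)) ^ r * 8 ^ c), by positivity,
    p + r, ?_⟩
  intro h φ hφ L hL st fl hfl w hw
  obtain ⟨n, hn⟩ : ∃ n, n = Y.len w := ⟨_, rfl⟩
  have hwK := hw.1
  rw [← hn] at hwK ⊢
  have hlist : ∀ n, ∀ w ∈ Y.K n, w.length = n + 1 ∧ Walk X.o A w := fun n w hw =>
    (W.K n w).1 hw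
  have hwk := hlist _ w hwK
  obtain ⟨e, he⟩ : ∃ e, w.getLast? = some e := by
    have hne : w ≠ [] := by
      rintro rfl
      simp at hwk
    exact ⟨_, List.getLast?_eq_some_getLast hne⟩
  obtain ⟨Q, hQ⟩ : ∃ Q : Finset (List Ver × List Ver),
      Q = (X.bx X.o k ∪ X.bx e m).biUnion (Pool.Agent.N169.EG.cand Z) := ⟨_, rfl⟩
  have hQc : Q.card ≤ c := by
    rw [hQ, hc]
    refine card_biUnion_le.trans ?_
    refine (sum_le_sum fun p _ => Pool.Agent.N169.EG.card_cand Z p).trans ?_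
    rw [sum_const, smul_eq_mul]
    refine Nat.mul_le_mul_right _ ((card_union_le _ _).trans ?_)
    exact Nat.add_le_add (X.card_bx _ _) (X.card_bx _ _)
  obtain ⟨P, hP⟩ : ∃ P : List Ver × List Ver → Prop, P = fun q => q ∈ Q := ⟨_, rfl⟩
  have hNc : ((Pool.Agent.N929.EG.Sl Y L w).filter P).card ≤ c := by
    refine (card_le_card fun q hq => ?_).trans hQc
    have := (mem_filter.1 hq).2
    rwa [hP] at this
  have hmem : ∀ U ⊆ Pool.Agent.N929.EG.Sl Y L w, fl w U ∈ Y.K (n + Y.s * U.card) :=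
    fun U hU => by rw [hn]; exact hfl.fl_K w U hw hU
  have hlast : ∀ U ⊆ Pool.Agent.N929.EG.Sl Y L w, (fl w U).getLast? = some e := by
    intro U hU
    have h1 := fl_far (P := fun _ => False) hfl (F := fun w => w.getLast?) hw
      (fun U hU q hq hqU _ hqS => by
        have h2 := hlist _ _ (hmem U hU)
        have h3 := (W.S _ q).1 hqS
        show (Y.ins (fl w U) q).getLast? = _
        rw [W.ins]
        exact last_rep (Z.pair _ _ h3.1) h2.2 h3.2) U hU
    rw [h1, filter_false, hfl.fl_empty w hw, he]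
  have hfar : ∀ U ⊆ Pool.Agent.N929.EG.Sl Y L w,
      ((fl w U).take (k + 1), (fl w U).reverse.take (m + 1)) =
      ((fl w (U.filter P)).take (k + 1), (fl w (U.filter P)).reverse.take (m + 1)) := by
    intro U hU
    refine fl_far (P := P) hfl
      (F := fun w => ((w.take (k + 1), w.reverse.take (m + 1)) : List Ver × List Ver)) hw
      (fun U hU q hq hqU hqN hqS => ?_) U hU
    have h2 := hlist _ _ (hmem U hU)
    have h3 := (W.S _ q).1 hqS
    have hqQ : q ∉ Q := fun hc => hqN (by rw [hP]; exact hc)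
    have hx : ∀ x ∈ q.1, x ∉ X.bx X.o k ∪ X.bx e m := by
      intro x hx hc
      apply hqQ
      rw [hQ, mem_biUnion]
      exact ⟨x, hc, Pool.Agent.N169.EG.mem_cand Z h3.1 (List.mem_append_left _ hx)⟩
    obtain ⟨h4, h5⟩ := rep_far (Z.pair _ _ h3.1) h2.2 h3.2 Z.step (k := k) (m := m)
      (hlast U hU) (fun x h hc => hx x h (mem_union_left _ hc))
      (fun x h hc => hx x h (mem_union_right _ hc))
    show ((Y.ins (fl w U) q).take (k + 1), (Y.ins (fl w U) q).reverse.take (m + 1)) = _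
    rw [W.ins, h4, h5]
  have hne : ∀ U ⊆ Pool.Agent.N929.EG.Sl Y L w, fl w U ≠ [] := by
    intro U hU hc
    have := (hlist _ _ (hmem U hU)).1
    rw [hc] at this
    simp at this
  have hSlT : ∀ q ∈ Pool.Agent.N929.EG.Sl Y L w, q.2 ≠ [] := by
    intro q hq
    have h2 := (hd_Sl W hq).1
    exact ne_nil (Z.pair _ _ h2).symm
  -- the coordinates
  have c1 : Crd (Pool.Agent.N929.EG.Sl Y L w) (fun U (i : Fin r) => lmx (h i) (fl w U))
      ((2 * (((Pool.Agent.N929.EG.Sl Y L w).card : ℝ) + 1)) ^ r) := by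
    refine crd_max (b := fun i => lmx (h i) w) (a := fun i q => lmx (h i) q.2)
      fun i U hU t => ?_
    have hw0 : w ≠ [] := by
      rintro rfl
      simp at hwk
    rw [lmx_le (hne U hU), lmx_le hw0]
    constructor
    · intro h1
      refine ⟨fun x hx => h1 x ((mem_fl W hZ hfl hw U hU x).2 (Or.inl hx)), fun q hq => ?_⟩
      rw [lmx_le (hSlT q (hU hq))]
      exact fun x hx => h1 x ((mem_fl W hZ hfl hw U hU x).2 (Or.inr ⟨q, hq, hx⟩))
    · rintro ⟨h1, h2⟩ x hx
      rcases (mem_fl W hZ hfl hw U hU x).1 hx with h3 | ⟨q, hq, h3⟩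
      · exact h1 x h3
      · exact (lmx_le (hSlT q (hU hq)) t).1 (h2 q hq) x h3
  have c2 : Crd (Pool.Agent.N929.EG.Sl Y L w)
      (fun U => ((fl w U).take (k + 1), (fl w U).reverse.take (m + 1))) (8 ^ c) :=
    crd_loc hfar hNc
  have c3 := c1.pair c2
  have hcard := card_Sl (L := L) W hwK
  rw [← hd] at hcard
  have hcard' : ((Pool.Agent.N929.EG.Sl Y L w).card : ℝ) ≤ ((n : ℝ) + 1) * d := by
    exact_mod_cast hcard
  have hn0 : (0 : ℝ) ≤ n := Nat.cast_nonneg _
  have hd0 : (0 : ℝ) ≤ d := Nat.cast_nonneg _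
  have hs0 : (0 : ℝ) ≤ Y.s := Nat.cast_nonneg _
  have h7 := c3.comp (fun v => φ v.1 v.2.1 v.2.2)
    (B := |C₁| * ((1 + (Y.s : ℝ) * d) ^ p * ((n : ℝ) + 1) ^ p)) (by positivity) (fun U hU => by
      refine (hφ _ _ (hmem U hU)).trans ?_
      rw [← mul_pow]
      refine mul_le_mul (le_abs_self _) ?_ (by positivity) (abs_nonneg _)
      refine pow_le_pow_left₀ (by positivity) ?_ p
      have h1 : (U.card : ℝ) ≤ ((n : ℝ) + 1) * d :=
        le_trans (by exact_mod_cast card_le_card hU) hcard'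
      push_cast
      have h5 : (Y.s : ℝ) * U.card ≤ Y.s * (((n : ℝ) + 1) * d) := mul_le_mul_of_nonneg_left h1 hs0
      nlinarith)
  refine h7.mono ?_
  have h8 : (2 * (((Pool.Agent.N929.EG.Sl Y L w).card : ℝ) + 1)) ^ r ≤
      (2 * ((d : ℝ) + 1)) ^ r * ((n : ℝ) + 1) ^ r := by
    rw [← mul_pow]
    refine pow_le_pow_left₀ (by positivity) ?_ r
    nlinarith
  calc |C₁| * ((1 + (Y.s : ℝ) * d) ^ p * ((n : ℝ) + 1) ^ p) *
        ((2 * (((Pool.Agent.N929.EG.Sl Y L w).card : ℝ) + 1)) ^ r * 8 ^ c)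
      ≤ |C₁| * ((1 + (Y.s : ℝ) * d) ^ p * ((n : ℝ) + 1) ^ p) *
        (((2 * ((d : ℝ) + 1)) ^ r * ((n : ℝ) + 1) ^ r) * 8 ^ c) := by
        refine mul_le_mul_of_nonneg_left ?_ (by positivity)
        exact mul_le_mul_of_nonneg_right h8 (by positivity)
    _ = _ := by rw [pow_add]; ring

end win

/-! ### planar graphs -/

variable {A : ℤ × ℤ → ℤ × ℤ → Prop}

theorem mx_dom {Z : TH966.AK.Rule A} {μ K : ℝ} {a : ℕ}
    (G : Pool.Agent.R965.HP.Gr Z.sys μ K a) (ha : 1 ≤ a)
    (hZ : ∀ U U', Z.T U U' → ∀ x ∈ U, x ∈ U') :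
    1 ≤ μ ∧ ∃ c : ℝ, 0 < c ∧ ∀ (k m r p : ℕ) (C₁ : ℝ) (h : Fin r → ℤ × ℤ → ℝ)
      (φ : (Fin r → ℝ) → List (ℤ × ℤ) → List (ℤ × ℤ) → ℝ),
      (∀ n, ∀ w ∈ TH966.AK.Kw A n,
        |φ (fun i => lmx (h i) w) (w.take (k + 1)) (w.reverse.take (m + 1))| ≤
        C₁ * ((n : ℝ) + 1) ^ p) →
      ∃ f : ℂ → ℂ, DifferentiableOn ℂ f (Om c μ Z.s) ∧
        ∀ z : ℂ, μ * ‖z‖ < 1 → HasSum (fun n => ((∑ w ∈ TH966.AK.Kw A n,
          φ (fun i => lmx (h i) w) (w.take (k + 1)) (w.reverse.take (m + 1)) : ℝ) : ℂ) *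
            z ^ n) (f z) := by
  obtain ⟨Y, W, y1, y2, y3, y4, y5⟩ := sys2W Z G.hs
  obtain ⟨K₁, hK₁, hG, hl⟩ := grD G ha y2 y3 y4
  obtain ⟨c, hc, h⟩ := ts_main Y hG
  refine ⟨hG.one, c, hc, fun k m r p C₁ hh φ hφ => ?_⟩
  obtain ⟨C₀, hC₀, p₀, h1⟩ := mx_rep W hZ k m r p C₁
  have h1' := h1 hh φ (fun n w hw => hφ n w (by rw [← y2]; exact hw))
  obtain ⟨C, -, h2⟩ := h C₀ p₀ hC₀
  obtain ⟨f, h3, h4, -⟩ := h2
    (fun w => ((φ (fun i => lmx (hh i) w) (w.take (k + 1)) (w.reverse.take (m + 1)) : ℝ) : ℂ))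
    (fun L hL st fl hfl w hw => RC.ofRp (h1' L hL st fl hfl w hw))
  rw [y1] at h3
  refine ⟨f, h3, fun z hz => ?_⟩
  refine (congrArg (fun g => HasSum g (f z)) ?_).mp (h4 z hz)
  funext n
  rw [y2, Complex.ofReal_sum]

/-- the maximum over a walk given as a function -/
theorem lmx_ofFn (h : ℤ × ℤ → ℝ) {n : ℕ} (γ : Fin (n + 1) → ℤ × ℤ) :
    lmx h (List.ofFn γ) = ⨆ i, h (γ i) := by
  unfold lmx iSup
  congr 1
  ext y
  simp only [Set.mem_image, Set.mem_ofPred_eq, List.mem_ofFn', Set.mem_range]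
  constructor
  · rintro ⟨x, ⟨i, rfl⟩, rfl⟩
    exact ⟨i, rfl⟩
  · rintro ⟨i, rfl⟩
    exact ⟨γ i, ⟨i, rfl⟩, rfl⟩

end

end Pool.Agent.U198.AC
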