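import Pool.Agent.U198.AC.Ts
import Pool.Agent.N929.EG.SzStm
import Pool.Agent.N929.EG.Two
import Pool.Agent.N169.EG.Win

/-!
# Functions of the first and the last vertices of a walk: representation
-/

set_option autoImplicit false
set_option linter.unusedVariables false

namespace Pool.Agent.U198.AC

open Finset Filter Topology Pool.Agent.N929.AC Pool.Agent.N929.EG
open scoped Classical

noncomputable section

section rp

variable {σ : Type} {E : Finset σ}

/-- the indicator function of `U ∩ N = V` -/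
theorem rp_prod (V : Finset σ) : ∀ N : Finset σ, N ⊆ E →
    Rp E (fun U => ∏ q ∈ N, (if q ∈ V then (if q ∈ U then (1 : ℝ) else 0) else
      (if q ∈ U then 0 else 1))) (2 ^ N.card) := by
  intro N
  induction N using Finset.induction_on with
  | empty =>
    intro _
    have h := Rp.const (E := E) 1
    simp only [prod_empty, card_empty, pow_zero]
    exact h.mono (by simp)
  | insert q N hq ih =>
    intro hN
    have h1 : q ∈ E := hN (mem_insert_self q N)
    have h2 := ih fun x hx => hN (mem_insert_of_mem hx)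
    have h3 : Rp E (fun U => if q ∈ V then (if q ∈ U then (1 : ℝ) else 0) else
        (if q ∈ U then 0 else 1)) 2 := by
      by_cases hV : q ∈ V
      · simp only [hV, if_true]
        exact Rp.mem h1
      · simp only [hV, if_false]
        refine ((Rp.ind (T := {q}) (singleton_subset_iff.2 h1)).mono one_le_two).congr
          fun U _ => ?_
        simp only [disjoint_singleton_left]
        by_cases h : q ∈ U <;> simp [h]
    rw [card_insert_of_notMem hq, pow_succ, mul_comm]
    refine (h3.mul h2).congr fun U _ => ?_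
    rw [prod_insert hq]

theorem prod_ind {N U V : Finset σ} (hV : V ⊆ N) :
    (∏ q ∈ N, (if q ∈ V then (if q ∈ U then (1 : ℝ) else 0) else (if q ∈ U then 0 else 1))) =
      if V = U ∩ N then 1 else 0 := by
  split_ifs with h
  · refine prod_eq_one fun q hq => ?_
    have h1 : q ∈ V ↔ q ∈ U := by
      rw [h, mem_inter]
      exact ⟨fun h => h.1, fun h => ⟨h, hq⟩⟩
    by_cases h2 : q ∈ U
    · simp [h1.2 h2, h2]
    · have h3 : q ∉ V := fun h => h2 (h1.1 h)
      simp [h2, h3]
  · have h1 : ∃ q ∈ N, ¬ (q ∈ V ↔ q ∈ U) := by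
      by_contra hc
      push Not at hc
      apply h
      ext q
      rw [mem_inter]
      exact ⟨fun h => ⟨(hc q (hV h)).1 h, hV h⟩, fun h => (hc q h.2).2 h.1⟩
    obtain ⟨q, hq, h2⟩ := h1
    refine prod_eq_zero hq ?_
    by_cases h3 : q ∈ V
    · have h4 : q ∉ U := fun h4 => h2 ⟨fun _ => h4, fun _ => h3⟩
      simp [h3, h4]
    · have h4 : q ∈ U := by
        by_contra h4
        exact h2 ⟨fun h => absurd h h3, fun h => absurd h h4⟩
      simp [h3, h4]

/-- a function which depends only on few slots -/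
theorem rp_loc {Φ : Finset σ → ℝ} {P : σ → Prop} {M : ℝ}
    (h1 : ∀ U ⊆ E, Φ U = Φ (U.filter P)) (h2 : ∀ U ⊆ E.filter P, |Φ U| ≤ M) :
    Rp E Φ (M * 4 ^ (E.filter P).card) := by
  obtain ⟨N, hNP⟩ : ∃ N, N = E.filter P := ⟨_, rfl⟩
  rw [← hNP] at h2 ⊢
  have hN : N ⊆ E := by rw [hNP]; exact filter_subset _ _
  have h3 : Rp E (fun U => ∑ V ∈ N.powerset, Φ V * ∏ q ∈ N, (if q ∈ V then
      (if q ∈ U then (1 : ℝ) else 0) else (if q ∈ U then 0 else 1)))
      (∑ V ∈ N.powerset, M * 2 ^ N.card) := by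
    refine Rp.sum (E := E) N.powerset (M := fun _ => M * 2 ^ N.card) fun V hV => ?_
    refine ((rp_prod V N hN).smul (Φ V)).mono ?_
    exact mul_le_mul_of_nonneg_right (h2 V (mem_powerset.1 hV)) (by positivity)
  rw [sum_const, card_powerset, nsmul_eq_mul] at h3
  have e : ((2 ^ N.card : ℕ) : ℝ) * (M * 2 ^ N.card) = M * 4 ^ N.card := by
    have : (4 : ℝ) ^ N.card = 2 ^ N.card * 2 ^ N.card := by
      rw [← mul_pow]; norm_num
    rw [this]
    push_cast
    ring
  rw [e] at h3
  refine h3.congr fun U hU => ?_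
  have hUN : U.filter P = U ∩ N := by
    rw [hNP]
    ext q
    rw [mem_filter, mem_inter, mem_filter]
    exact ⟨fun h => ⟨h.1, hU h.1, h.2⟩, fun h => ⟨h.1, h.2.2⟩⟩
  rw [h1 U hU, hUN]
  have e2 : ∀ V ∈ N.powerset, (Φ V * ∏ q ∈ N, (if q ∈ V then
      (if q ∈ U then (1 : ℝ) else 0) else (if q ∈ U then 0 else 1))) =
      if V = U ∩ N then Φ V else 0 := by
    intro V hV
    rw [prod_ind (mem_powerset.1 hV)]
    split_ifs <;> simp
  rw [sum_congr rfl e2, sum_ite_eq' N.powerset (U ∩ N),
    if_pos (mem_powerset.2 inter_subset_right)]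

end rp

section fl

variable {α σ : Type} {Y : TS α σ} {L : Finset σ} {st : α → α} {fl : α → Finset σ → α}

/-- a functional which does not change at the slots outside `P` -/
theorem fl_far (h : Fill Y L st fl) {β : Type} {F : α → β} {w : α} (hw : Em Y L w)
    {P : σ → Prop} (hF : ∀ U ⊆ Sl Y L w, ∀ q ∈ Sl Y L w, q ∉ U → ¬ P q →
      q ∈ Y.S (fl w U) → F (Y.ins (fl w U) q) = F (fl w U)) :
    ∀ U : Finset σ, U ⊆ Sl Y L w → F (fl w U) = F (fl w (U.filter P)) := by
  have key : ∀ (m : ℕ) (U : Finset σ), U ⊆ Sl Y L w → (U.filter (fun q => ¬ P q)).card = m →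
      F (fl w U) = F (fl w (U.filter P)) := by
    intro m
    induction m with
    | zero =>
      intro U hU hc
      rw [card_eq_zero, filter_eq_empty_iff] at hc
      rw [filter_true_of_mem fun q hq => not_not.1 (hc hq)]
    | succ m ih =>
      intro U hU hc
      have hne : (U.filter (fun q => ¬ P q)).Nonempty := by
        rw [← card_pos]; omega
      obtain ⟨q, hq⟩ := hne
      have hqU := (mem_filter.1 hq).1
      have hqN := (mem_filter.1 hq).2
      have h1 : U.erase q ⊆ Sl Y L w := (erase_subset q U).trans hU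
      have h2 : q ∉ U.erase q := notMem_erase q U
      obtain ⟨h3, h4⟩ := h.fl_insert w (U.erase q) q hw h1 (hU hqU) h2
      rw [insert_erase hqU] at h4
      have h5 : ((U.erase q).filter (fun q => ¬ P q)).card = m := by
        have : (U.erase q).filter (fun q => ¬ P q) = (U.filter (fun q => ¬ P q)).erase q := by
          ext x
          rw [mem_filter, mem_erase, mem_erase, mem_filter]
          tauto
        rw [this, card_erase_of_mem hq, hc]
        rfl
      have h6 : (U.erase q).filter P = U.filter P := by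
        ext x
        rw [mem_filter, mem_filter, mem_erase]
        constructor
        · rintro ⟨⟨-, h⟩, h'⟩
          exact ⟨h, h'⟩
        · rintro ⟨h, h'⟩
          exact ⟨⟨fun hx => hqN (hx ▸ h'), h⟩, h'⟩
      rw [h4, hF _ h1 q (hU hqU) h2 hqN h3, ih _ h1 h5, h6]
  exact fun U hU => key _ U hU rfl

end fl

section walks

variable {Ver : Type} {X : Geo Ver} {A : Ver → Ver → Prop}

theorem chain_near {A' : Ver → Ver → Prop} (hA : ∀ p q, A' p q → q ∈ X.bx p 1) :
    ∀ (l : List Ver) (x : Ver) (m : ℕ), (x :: l).IsChain A' →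
      (x :: l).length ≤ m + 1 → ∀ y ∈ x :: l, y ∈ X.bx x m := by
  intro l
  induction l with
  | nil =>
    intro x m _ _ y hy
    simp only [List.mem_singleton] at hy
    subst hy
    exact X.self _ _
  | cons z l ih =>
    intro x m hc hl y hy
    rw [List.isChain_cons_cons] at hc
    rw [List.mem_cons] at hy
    rcases hy with rfl | hy
    · exact X.self _ _
    · obtain ⟨m', rfl⟩ : ∃ m', m = m' + 1 := by
        simp only [List.length_cons] at hl
        exact ⟨m - 1, by omega⟩
      have h1 := ih z m' hc.2 (by simp only [List.length_cons] at hl ⊢; omega) y hy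
      have h2 := hA x z hc.1
      rw [Nat.add_comm]
      exact X.tri x z y 1 m' h2 h1

/-- the first `k + 1` elements of a chain are near the first one -/
theorem take_near {A' : Ver → Ver → Prop} (hA : ∀ p q, A' p q → q ∈ X.bx p 1) {w : List Ver}
    (hw : w.IsChain A') {x : Ver} (hx : w.head? = some x) (k : ℕ) :
    ∀ y ∈ w.take (k + 1), y ∈ X.bx x k := by
  cases w with
  | nil => simp at hx
  | cons a l =>
    simp only [List.head?_cons, Option.some.injEq] at hx
    subst hx
    intro y hy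
    rw [List.take_succ_cons] at hy
    refine chain_near hA (l.take k) a k ?_ ?_ y hy
    · have h1 := hw.take (k + 1)
      rwa [List.take_succ_cons] at h1
    · simp only [List.length_cons, List.length_take]
      omega

theorem take_app {B C : List Ver} {L : List Ver} {p : Ver} {k : ℕ}
    (h : p ∉ (L ++ p :: B).take (k + 1)) :
    (L ++ p :: C).take (k + 1) = (L ++ p :: B).take (k + 1) := by
  have hL : k + 1 ≤ L.length := by
    by_contra hc
    apply h
    rw [List.take_append]
    refine List.mem_append_right _ ?_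
    obtain ⟨j, hj⟩ : ∃ j, k + 1 - L.length = j + 1 := ⟨k - L.length, by omega⟩
    rw [hj, List.take_succ_cons]
    simp
  rw [List.take_append_of_le_length hL, List.take_append_of_le_length hL]

variable {Z : Rul X A} {Y : TS (List Ver) (List Ver × List Ver)}

/-- far moves do not change the first and the last vertices -/
theorem rep_far {U U' w : List Ver} (h : Pair A U U') (hw : Walk X.o A w) (hf : Free U U' w)
    (hst : ∀ p q, A p q → q ∈ X.bx p 1) {k m : ℕ} {e : Ver} (he : w.getLast? = some e)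
    (h1 : ∀ x ∈ U, x ∉ X.bx X.o k) (h2 : ∀ x ∈ U, x ∉ X.bx e m) :
    (rep w U U').take (k + 1) = w.take (k + 1) ∧
      (rep w U U').reverse.take (m + 1) = w.reverse.take (m + 1) := by
  obtain ⟨L, R, e1, e2, -, -, -⟩ := rep_all h hw hf
  obtain ⟨⟨p, r, Q, Q', e3, e4, -, -⟩, -⟩ := h
  have hp : p ∈ U := by rw [e3]; simp
  have hr : r ∈ U := by rw [e3]; simp
  have hA' : ∀ p q, A q p → q ∈ X.bx p 1 := fun p q hpq => X.symm _ _ _ (hst q p hpq)
  have hchain : w.reverse.IsChain (fun p q => A q p) := by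
    rw [List.isChain_reverse]
    exact hw.2.2
  have hhead : w.reverse.head? = some e := by
    rw [List.head?_reverse]
    exact he
  have n1 := take_near (X := X) hst hw.2.2 hw.1 k
  have n2 := take_near (X := X) hA' hchain hhead m
  constructor
  · have f1 : w = L ++ p :: (Q ++ r :: R) := by rw [e1, e3]; simp
    have f2 : rep w U U' = L ++ p :: (Q' ++ r :: R) := by rw [e2, e4]; simp
    rw [f2]
    conv_rhs => rw [f1]
    refine take_app fun hc => ?_
    rw [← f1] at hc
    exact h1 p hp (n1 p hc)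
  · have f1 : w.reverse = R.reverse ++ r :: (Q.reverse ++ p :: L.reverse) := by
      rw [e1, e3]; simp
    have f2 : (rep w U U').reverse = R.reverse ++ r :: (Q'.reverse ++ p :: L.reverse) := by
      rw [e2, e4]; simp
    rw [f2]
    conv_rhs => rw [f1]
    refine take_app fun hc => ?_
    rw [← f1] at hc
    exact h2 r hr (n2 r hc)

/-- **functions of the first and last vertices** -/
theorem en_rep (W : Win Z Y) (k m p : ℕ) (φ : List Ver → List Ver → ℝ) (C₁ : ℝ)
    (hφ : ∀ n, ∀ w ∈ Y.K n, |φ (w.take (k + 1)) (w.reverse.take (m + 1))| ≤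
      C₁ * ((n : ℝ) + 1) ^ p) :
    ∃ C₀ : ℝ, 0 ≤ C₀ ∧ ∀ L, Fam Y L → ∀ st fl, Fill Y L st fl → ∀ w, Em Y L w →
      Rp (Pool.Agent.N929.EG.Sl Y L w)
        (fun U => φ ((fl w U).take (k + 1)) ((fl w U).reverse.take (m + 1)))
        (C₀ * ((Y.len w : ℝ) + 1) ^ p) := by
  obtain ⟨c, hc⟩ : ∃ c : ℕ, c = (X.g k + X.g m) * Pool.Agent.N169.EG.c0 Z := ⟨_, rfl⟩
  refine ⟨|C₁| * (1 + (Y.s : ℝ) * c) ^ p * 4 ^ c, by positivity, ?_⟩
  intro L hL st fl hfl w hw
  have hlist : ∀ n, ∀ w ∈ Y.K n, w.length = n + 1 ∧ Walk X.o A w := fun n w hw =>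
    (W.K n w).1 hw
  have hwk := hlist _ w hw.1
  obtain ⟨e, he⟩ : ∃ e, w.getLast? = some e := by
    have hne : w ≠ [] := by
      rintro rfl
      simp at hwk
    exact ⟨_, List.getLast?_eq_some_getLast hne⟩
  obtain ⟨Q, hQ⟩ : ∃ Q : Finset (List Ver × List Ver),
      Q = (X.bx X.o k ∪ X.bx e m).biUnion (Pool.Agent.N169.EG.cand Z) := ⟨_, rfl⟩
  have hQc : Q.card ≤ c := by
    rw [hQ, hc]
    refine card_biUnion_le.trans ?_
    refine (sum_le_sum fun p _ => Pool.Agent.N169.EG.card_cand Z p).trans ?_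
    rw [sum_const, smul_eq_mul]
    refine Nat.mul_le_mul_right _ ((card_union_le _ _).trans ?_)
    exact Nat.add_le_add (X.card_bx _ _) (X.card_bx _ _)
  obtain ⟨P, hP⟩ : ∃ P : List Ver × List Ver → Prop, P = fun q => q ∈ Q := ⟨_, rfl⟩
  have hNc : ((Pool.Agent.N929.EG.Sl Y L w).filter P).card ≤ c := by
    refine (card_le_card fun q hq => ?_).trans hQc
    have := (mem_filter.1 hq).2
    rwa [hP] at this
  -- the last vertex of all fillings
  have hmem : ∀ U ⊆ Pool.Agent.N929.EG.Sl Y L w, fl w U ∈ Y.K (Y.len w + Y.s * U.card) :=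
    fun U hU => hfl.fl_K w U hw hU
  have hlast : ∀ U ⊆ Pool.Agent.N929.EG.Sl Y L w, (fl w U).getLast? = some e := by
    intro U hU
    have h1 := fl_far (P := fun _ => False) hfl (F := fun w => w.getLast?) hw
      (fun U hU q hq hqU _ hqS => by
        have h2 := hlist _ _ (hmem U hU)
        have h3 := (W.S _ q).1 hqS
        show (Y.ins (fl w U) q).getLast? = _
        rw [W.ins]
        exact last_rep (Z.pair _ _ h3.1) h2.2 h3.2) U hU
    rw [h1, filter_false, hfl.fl_empty w hw, he]
  have hfar : ∀ U ⊆ Pool.Agent.N929.EG.Sl Y L w,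
      ((fl w U).take (k + 1), (fl w U).reverse.take (m + 1)) =
      ((fl w (U.filter P)).take (k + 1), (fl w (U.filter P)).reverse.take (m + 1)) := by
    intro U hU
    refine fl_far (P := P) hfl
      (F := fun w => ((w.take (k + 1), w.reverse.take (m + 1)) : List Ver × List Ver)) hw
      (fun U hU q hq hqU hqN hqS => ?_) U hU
    have h2 := hlist _ _ (hmem U hU)
    have h3 := (W.S _ q).1 hqS
    have hqQ : q ∉ Q := fun hc => hqN (by rw [hP]; exact hc)
    have hx : ∀ x ∈ q.1, x ∉ X.bx X.o k ∪ X.bx e m := by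
      intro x hx hc
      apply hqQ
      rw [hQ, mem_biUnion]
      exact ⟨x, hc, Pool.Agent.N169.EG.mem_cand Z h3.1 (List.mem_append_left _ hx)⟩
    obtain ⟨h4, h5⟩ := rep_far (Z.pair _ _ h3.1) h2.2 h3.2 Z.step (k := k) (m := m)
      (hlast U hU) (fun x h hc => hx x h (mem_union_left _ hc))
      (fun x h hc => hx x h (mem_union_right _ hc))
    show ((Y.ins (fl w U) q).take (k + 1), (Y.ins (fl w U) q).reverse.take (m + 1)) = _
    rw [W.ins, h4, h5]
  have hM : ∀ U ⊆ (Pool.Agent.N929.EG.Sl Y L w).filter P,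
      |φ ((fl w U).take (k + 1)) ((fl w U).reverse.take (m + 1))| ≤
      |C₁| * (1 + (Y.s : ℝ) * c) ^ p * ((Y.len w : ℝ) + 1) ^ p := by
    intro U hU
    have hU' := hU.trans (filter_subset _ _)
    refine (hφ _ _ (hmem U hU')).trans ?_
    rw [mul_assoc, ← mul_pow]
    refine mul_le_mul (le_abs_self _) ?_ (by positivity) (abs_nonneg _)
    refine pow_le_pow_left₀ (by positivity) ?_ p
    have h1 : (U.card : ℝ) ≤ c := by exact_mod_cast (card_le_card hU).trans hNc
    have h2 : (0 : ℝ) ≤ Y.s := Nat.cast_nonneg _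
    have h3 : (0 : ℝ) ≤ Y.len w := Nat.cast_nonneg _
    have h4 : (0 : ℝ) ≤ c := Nat.cast_nonneg _
    push_cast
    have h5 : (Y.s : ℝ) * U.card ≤ Y.s * c := mul_le_mul_of_nonneg_left h1 h2
    have h6 : 0 ≤ (Y.s : ℝ) * c * Y.len w := by positivity
    nlinarith
  have h7 := rp_loc (P := P)
    (Φ := fun U => φ ((fl w U).take (k + 1)) ((fl w U).reverse.take (m + 1)))
    (fun U hU => by
      have := hfar U hU
      rw [Prod.mk.injEq] at this
      show φ ((fl w U).take (k + 1)) ((fl w U).reverse.take (m + 1)) = _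
      rw [this.1, this.2]) hM
  refine h7.mono ?_
  have h8 : (4 : ℝ) ^ ((Pool.Agent.N929.EG.Sl Y L w).filter P).card ≤ 4 ^ c :=
    pow_le_pow_right₀ (by norm_num) hNc
  calc |C₁| * (1 + (Y.s : ℝ) * c) ^ p * ((Y.len w : ℝ) + 1) ^ p *
        4 ^ ((Pool.Agent.N929.EG.Sl Y L w).filter P).card
      ≤ |C₁| * (1 + (Y.s : ℝ) * c) ^ p * ((Y.len w : ℝ) + 1) ^ p * 4 ^ c :=
        mul_le_mul_of_nonneg_left h8 (by positivity)
    _ = _ := by ring

end walks

end

end Pool.Agent.U198.AC
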