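import Pool.Agent.U198.AC.En
import Pool.Agent.N929.EG.SizeP

/-!
# Functions of the first and the last vertices: planar graphs
-/

set_option autoImplicit false
set_option linter.unusedVariables false

namespace Pool.Agent.U198.AC

open Finset Filter Topology Pool.Agent.N929.AC Pool.Agent.N929.EG
open scoped Classical

noncomputable section

variable {A : ℤ × ℤ → ℤ × ℤ → Prop}

/-- **continuation for functions of the first and last vertices**, lists -/
theorem en_dom {Z : TH966.AK.Rule A} {μ K : ℝ} {a : ℕ}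
    (G : Pool.Agent.R965.HP.Gr Z.sys μ K a) (ha : 1 ≤ a) :
    1 ≤ μ ∧ ∃ c : ℝ, 0 < c ∧ ∀ (k m p : ℕ) (C₁ : ℝ) (φ : List (ℤ × ℤ) → List (ℤ × ℤ) → ℝ),
      (∀ n, ∀ w ∈ TH966.AK.Kw A n, |φ (w.take (k + 1)) (w.reverse.take (m + 1))| ≤
        C₁ * ((n : ℝ) + 1) ^ p) →
      ∃ f : ℂ → ℂ, DifferentiableOn ℂ f (Om c μ Z.s) ∧
        ∀ z : ℂ, μ * ‖z‖ < 1 → HasSum (fun n => ((∑ w ∈ TH966.AK.Kw A n,
          φ (w.take (k + 1)) (w.reverse.take (m + 1)) : ℝ) : ℂ) * z ^ n) (f z) := by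
  obtain ⟨Y, W, y1, y2, y3, y4, y5⟩ := sys2W Z G.hs
  obtain ⟨K₁, hK₁, hG, hl⟩ := grD G ha y2 y3 y4
  obtain ⟨c, hc, h⟩ := ts_main Y hG
  refine ⟨hG.one, c, hc, fun k m p C₁ φ hφ => ?_⟩
  obtain ⟨C₀, hC₀, h1⟩ := en_rep W k m p φ C₁ (fun n w hw => hφ n w (by rw [← y2]; exact hw))
  obtain ⟨C, -, h2⟩ := h C₀ p hC₀
  obtain ⟨f, h3, h4, -⟩ := h2
    (fun w => ((φ (w.take (k + 1)) (w.reverse.take (m + 1)) : ℝ) : ℂ))
    (fun L hL st fl hfl w hw => RC.ofRp (h1 L hL st fl hfl w hw))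
  rw [y1] at h3
  refine ⟨f, h3, fun z hz => ?_⟩
  have h5 := h4 z hz
  refine (congrArg (fun g => HasSum g (f z)) ?_).mp h5
  funext n
  rw [y2, Complex.ofReal_sum]

/-! ### walks as functions -/

/-- a function of tuples as a function of lists -/
def ofL {k m : ℕ} (φ : (Fin (k + 1) → ℤ × ℤ) → (Fin (m + 1) → ℤ × ℤ) → ℝ)
    (T T' : List (ℤ × ℤ)) : ℝ :=
  φ (fun i => T.getD (min (i : ℕ) (T.length - 1)) 0)
    (fun j => T'.getD (min (j : ℕ) (T'.length - 1)) 0)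

theorem ofL_ofFn {k m : ℕ} (φ : (Fin (k + 1) → ℤ × ℤ) → (Fin (m + 1) → ℤ × ℤ) → ℝ) {n : ℕ}
    (γ : Fin (n + 1) → ℤ × ℤ) :
    ofL φ ((List.ofFn γ).take (k + 1)) ((List.ofFn γ).reverse.take (m + 1)) =
      φ (fun i => γ ⟨min i n, by omega⟩) (fun j => γ ⟨n - j, by omega⟩) := by
  unfold ofL
  congr 1
  · funext i
    have hi := i.2
    have hl : ((List.ofFn γ).take (k + 1)).length = min (k + 1) (n + 1) := by simp
    rw [hl]
    have e : min (i : ℕ) (min (k + 1) (n + 1) - 1) = min (i : ℕ) n := by omega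
    rw [e, List.getD_eq_getElem _ _ (by rw [hl]; omega), List.getElem_take, List.getElem_ofFn]
  · funext j
    have hj := j.2
    have hl : ((List.ofFn γ).reverse.take (m + 1)).length = min (m + 1) (n + 1) := by simp
    rw [hl]
    have e : min (j : ℕ) (min (m + 1) (n + 1) - 1) = min (j : ℕ) n := by omega
    rw [e, List.getD_eq_getElem _ _ (by rw [hl]; omega), List.getElem_take,
      List.getElem_reverse, List.getElem_ofFn]
    congr 1
    apply Fin.ext
    simp only [List.length_ofFn]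
    omega

end

end Pool.Agent.U198.AC
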