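import Pool.Agent.U198.AC.Ts
import Pool.Agent.N929.EZ.All2
import Pool.Agent.N929.EZ.RpA

/-!
# Analytic continuation for functionals: self-avoiding walks on the square lattice
-/

set_option autoImplicit false
set_option linter.unusedVariables false

namespace Pool.Agent.U198.AC

open Finset Filter Topology Pool.Agent.N929.AC
open Pool.Agent.H976R2 Pool.Agent.H976R2.Dir
open Pool.Agent.N929.EX Pool.Agent.N929.EY
open scoped Classical

noncomputable section

/-- the fillings of a family of unit squares without common corners -/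
def fdE (L : Finset (ℤ × ℤ)) (st : List Dir → List Dir)
    (fl : List Dir → Finset (ℤ × ℤ) → List Dir) (h : Pool.Agent.N929.EZ.Fill L 0 0 st fl) :
    FD SW List.length 2 (ℤ × ℤ) where
  Sl := Pool.Agent.N929.EZ.Sl L 0 0
  Oc := Pool.Agent.N929.EZ.Oc L 0 0
  st := st
  fl := fl
  oc_sl := fun w hw => by
    unfold Pool.Agent.N929.EZ.Sl Pool.Agent.N929.EZ.Oc
    exact OO_sub'
  st_K := fun w hw => (h.st_em w (by omega) hw).2.1
  st_oc := fun w hw => (h.st_em w (by omega) hw).2.2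
  st_len := fun w hw => h.st_len w (by omega) hw
  st_sl := fun w hw => h.st_sl w (by omega) hw
  fl_st := fun w hw => h.fl_st w (by omega) hw
  fl_K := fun w hw ho U hU => h.fl_sw w U ⟨by omega, hw, ho⟩ hU
  fl_oc := fun w hw ho U hU => h.fl_oc w U ⟨by omega, hw, ho⟩ hU
  st_fl := fun w hw ho U hU => h.st_fl w U ⟨by omega, hw, ho⟩ hU

/-- the fillings which come from a family of unit squares without common corners -/
def QE (D : FD SW List.length 2 (ℤ × ℤ)) : Prop :=
  ∃ (L : Finset (ℤ × ℤ)) (st : List Dir → List Dir)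
    (fl : List Dir → Finset (ℤ × ℤ) → List Dir) (h : Pool.Agent.N929.EZ.Fill L 0 0 st fl), CF L ∧
    D = fdE L st fl h

theorem len_SW (n : ℕ) (w : List Dir) (hw : w ∈ SW n) : w.length = n := (mem_SW.1 hw).1

variable {μ K : ℝ}

theorem lim_log (K : ℝ) : Tendsto (fun n : ℕ => K * Real.log n ^ 2 / n) atTop (𝓝 0) := by
  have h := ((Real.isLittleO_pow_log_id_atTop (n := 2)).tendsto_div_nhds_zero.comp
    tendsto_natCast_atTop_atTop).const_mul K
  rw [mul_zero] at h
  refine h.congr fun n => ?_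
  simp only [Function.comp, id]
  ring

theorem gr_sw (hμ : 1 ≤ μ) (hK : 0 ≤ K)
    (hup : ∀ m n : ℕ, 2 ≤ n → m ≤ n → ((SW m).card : ℝ) ≤ 4 * (μ ^ m * Real.exp (K * Real.log n ^ 2)))
    (p : ℕ) (x : ℝ) (hx : 0 ≤ x) (hμx : μ * x < 1) :
    Summable (fun n => (((SW n).card : ℝ) * ((n : ℝ) + 1) ^ p) * x ^ n) := by
  have hr0 : 0 ≤ μ * x := by positivity
  set r := μ * x with hr
  set e := (1 - r) / 2 with he
  have he0 : 0 < e := by rw [he]; linarith
  have hρ : r * Real.exp e < 1 := by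
    have h1 := Real.add_one_le_exp (-e)
    have h3 : Real.exp e * Real.exp (-e) = 1 := by rw [← Real.exp_add]; simp
    have h4 := Real.exp_pos e
    have h2 : Real.exp e * (1 - e) ≤ 1 := by
      rw [← h3]
      exact mul_le_mul_of_nonneg_left (by linarith) h4.le
    have h5 : r < 1 - e := by rw [he]; linarith
    have h6 : r * Real.exp e < (1 - e) * Real.exp e := mul_lt_mul_of_pos_right h5 h4
    linarith [mul_comm (1 - e) (Real.exp e)]
  have hphi := lim_log (K + 2)
  have h1 : ∀ᶠ n : ℕ in atTop, (K + 2) * Real.log n ^ 2 / n < e := hphi.eventually_lt_const he0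
  have h2 : Summable (fun n : ℕ => 4 * (((n : ℝ) + 1) ^ p * (r * Real.exp e) ^ n)) :=
    (Pool.Agent.N738.AC.sum_pp p _ (by positivity) hρ).mul_left _
  refine h2.of_norm_bounded_eventually_nat ?_
  filter_upwards [h1, eventually_ge_atTop 2] with n hn1 hn2
  have hn0 : (0 : ℝ) < n := by exact_mod_cast (by omega : 0 < n)
  have h3 : K * Real.log n ^ 2 ≤ e * n := by
    rw [div_lt_iff₀ hn0] at hn1
    have := sq_nonneg (Real.log (n : ℝ))
    nlinarith
  have h4 := hup n n hn2 le_rfl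
  rw [Real.norm_eq_abs, abs_of_nonneg (by positivity)]
  have h6 : Real.exp (K * Real.log n ^ 2) ≤ Real.exp e ^ n := by
    rw [← Real.exp_nat_mul]
    apply Real.exp_le_exp.2
    linarith [mul_comm e (n : ℝ)]
  calc (((SW n).card : ℝ) * ((n : ℝ) + 1) ^ p) * x ^ n
      ≤ ((4 * (μ ^ n * Real.exp e ^ n)) * ((n : ℝ) + 1) ^ p) * x ^ n := by
        refine mul_le_mul_of_nonneg_right (mul_le_mul_of_nonneg_right (h4.trans ?_)
          (by positivity)) (by positivity)
        gcongr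
    _ = _ := by
        rw [hr, mul_pow, mul_pow]
        ring

theorem few_ez (hμ : 1 ≤ μ) (hK : 0 ≤ K)
    (hup : ∀ m n : ℕ, 2 ≤ n → m ≤ n → ((SW m).card : ℝ) ≤ 4 * (μ ^ m * Real.exp (K * Real.log n ^ 2))) :
    Few SW List.length 2 (ℤ × ℤ) μ QE := by
  obtain ⟨A, B, hA, hB, hF⟩ := few_win (Pool.Agent.N348.EX.few_of_up Pool.Agent.N348.EX.up)
  have hμ0 : 0 < μ := by linarith
  obtain ⟨η, hη⟩ : ∃ η : ℝ, η = 1 / 400000000 := ⟨_, rfl⟩
  have hη0 : 0 < η := by rw [hη]; norm_num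
  obtain ⟨θ, hθ⟩ : ∃ θ : ℝ, θ = Real.exp (-(η / 2)) := ⟨_, rfl⟩
  have hθ0 : 0 < θ := by rw [hθ]; exact Real.exp_pos _
  have hθ1 : θ < 1 := by
    rw [hθ, Real.exp_lt_one_iff]
    linarith
  -- the numbers of walks
  have hx : Summable (fun n => (((SW n).card : ℝ) * ((n : ℝ) + 1) ^ 0) * (θ / μ) ^ n) :=
    gr_sw hμ hK hup 0 _ (by positivity) (by
      rw [mul_div_cancel₀ _ hμ0.ne']
      exact hθ1)
  simp only [pow_zero, mul_one] at hx
  obtain ⟨S, hS⟩ : ∃ S : ℝ, S = ∑' n, ((SW n).card : ℝ) * (θ / μ) ^ n := ⟨_, rfl⟩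
  have hS0 : 0 ≤ S := by rw [hS]; exact tsum_nonneg fun n => by positivity
  have hSW : ∀ m : ℕ, ((SW m).card : ℝ) ≤ S * (θ⁻¹ * μ) ^ m := by
    intro m
    have h1 : ((SW m).card : ℝ) * (θ / μ) ^ m ≤ S := by
      rw [hS]
      exact hx.le_tsum m fun n _ => by positivity
    have h2 : (θ / μ) ^ m * (θ⁻¹ * μ) ^ m = 1 := by
      rw [← mul_pow]
      have : θ / μ * (θ⁻¹ * μ) = 1 := by field_simp
      rw [this, one_pow]
    calc ((SW m).card : ℝ) = ((SW m).card : ℝ) * ((θ / μ) ^ m * (θ⁻¹ * μ) ^ m) := by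
          rw [h2, mul_one]
      _ = (((SW m).card : ℝ) * (θ / μ) ^ m) * (θ⁻¹ * μ) ^ m := by ring
      _ ≤ S * (θ⁻¹ * μ) ^ m := mul_le_mul_of_nonneg_right h1 (by positivity)
  have hθ2 : θ⁻¹ * Real.exp (-η) = θ := by
    rw [hθ, ← Real.exp_neg, ← Real.exp_add]
    congr 1
    ring
  have hSWe : ∀ m : ℕ, ((SW m).card : ℝ) * Real.exp (-(η * m)) ≤ S * (θ * μ) ^ m := by
    intro m
    calc ((SW m).card : ℝ) * Real.exp (-(η * m)) ≤ (S * (θ⁻¹ * μ) ^ m) * Real.exp (-(η * m)) :=
          mul_le_mul_of_nonneg_right (hSW m) (Real.exp_pos _).le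
      _ = S * ((θ⁻¹ * Real.exp (-η)) * μ) ^ m := by
          have : Real.exp (-(η * m)) = Real.exp (-η) ^ m := by
            rw [← Real.exp_nat_mul]
            congr 1
            ring
          rw [this, mul_pow, mul_pow, mul_pow]
          ring
      _ = S * (θ * μ) ^ m := by rw [hθ2]
  -- large lengths
  have hphi := lim_log (A + 2)
  obtain ⟨m₁, hm₁⟩ := eventually_atTop.1 (hphi.eventually_lt_const (show (0 : ℝ) < 1 by norm_num))
  have hbig : ∀ m : ℕ, m₁ + 2 ≤ m → A * Real.log m ^ 2 ≤ ((m : ℕ) : ℝ) - ((0 : ℕ) : ℝ) := by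
    intro m hm
    have h1 := hm₁ m (by omega)
    have hm0 : (0 : ℝ) < m := by exact_mod_cast (by omega : 0 < m)
    rw [div_lt_iff₀ hm0] at h1
    have := sq_nonneg (Real.log (m : ℝ))
    push_cast
    nlinarith
  refine ⟨1 / 400000000, θ, (B + 1) * S + S * Real.exp (η * (m₁ + 2)) + 1, by norm_num, hθ0, hθ1,
    by positivity, fun N => ?_⟩
  obtain ⟨ι, i1, i2, Λ, hΛ, hs⟩ := Pool.Agent.N322.EZ.sel3 (N + 1)
  have hb : ∀ i, ∃ (st : List Dir → List Dir) (fl : List Dir → Finset (ℤ × ℤ) → List Dir),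
      Pool.Agent.N929.EZ.Fill (Λ i) 0 0 st fl := fun i =>
    Pool.Agent.N929.EZ.s_bij (Λ i) (hΛ i) 0 0
  choose st fl hfl using hb
  refine ⟨ι, i1, i2, fun i => fdE (Λ i) (st i) (fl i) (hfl i),
    fun i => ⟨Λ i, st i, fl i, hfl i, hΛ i, rfl⟩, fun m hm => ?_⟩
  have hSl : ∀ i w, (fdE (Λ i) (st i) (fl i) (hfl i)).Sl w = Pool.Agent.N929.EZ.Sl (Λ i) 0 0 w :=
    fun _ _ => rfl
  simp only [hSl]
  have hι : (0 : ℝ) ≤ Fintype.card ι := Nat.cast_nonneg _
  have hTm : 0 ≤ (θ * μ) ^ m := by positivity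
  by_cases hmb : m < m₁ + 2
  · -- short walks
    have h1 : ∀ i, (((SW m).filter (fun w => ((Pool.Agent.N929.EZ.Sl (Λ i) 0 0 w).card : ℝ) <
        1 / 400000000 * m)).card : ℝ) ≤ S * Real.exp (η * (m₁ + 2)) * (θ * μ) ^ m := by
      intro i
      have h2 : (((SW m).filter (fun w => ((Pool.Agent.N929.EZ.Sl (Λ i) 0 0 w).card : ℝ) <
        1 / 400000000 * m)).card : ℝ) ≤ ((SW m).card : ℝ) := by
        exact_mod_cast card_filter_le _ _
      refine h2.trans ?_
      have h3 := hSWe m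
      have hm' : (m : ℝ) ≤ m₁ + 2 := by exact_mod_cast hmb.le
      have h4 : (1 : ℝ) ≤ Real.exp (η * (m₁ + 2)) * Real.exp (-(η * m)) := by
        rw [← Real.exp_add]
        apply Real.one_le_exp
        nlinarith
      calc ((SW m).card : ℝ) ≤ ((SW m).card : ℝ) *
            (Real.exp (η * (m₁ + 2)) * Real.exp (-(η * m))) :=
            le_mul_of_one_le_right (Nat.cast_nonneg _) h4
        _ = Real.exp (η * (m₁ + 2)) * (((SW m).card : ℝ) * Real.exp (-(η * m))) := by ring
        _ ≤ Real.exp (η * (m₁ + 2)) * (S * (θ * μ) ^ m) :=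
            mul_le_mul_of_nonneg_left h3 (Real.exp_pos _).le
        _ = _ := by ring
    refine (sum_le_sum fun i _ => h1 i).trans ?_
    rw [sum_const, card_univ, nsmul_eq_mul]
    have h5 : S * Real.exp (η * (m₁ + 2)) ≤
        (B + 1) * S + S * Real.exp (η * (m₁ + 2)) + 1 := by
      have : 0 ≤ (B + 1) * S := by positivity
      linarith
    calc (Fintype.card ι : ℝ) * (S * Real.exp (η * (m₁ + 2)) * (θ * μ) ^ m) =
          S * Real.exp (η * (m₁ + 2)) * (θ * μ) ^ m * Fintype.card ι := by ring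
      _ ≤ _ := by gcongr
  · push Not at hmb
    have hF' := hF m 0 m (by omega) (Nat.zero_le _) le_rfl (hbig m hmb)
    have e1 : ∀ i, (((SW m).filter (fun w => ((Pool.Agent.N929.EZ.Sl (Λ i) 0 0 w).card : ℝ) <
        1 / 400000000 * m)).card : ℝ) =
        ∑ w ∈ SW m, if ((Pool.Agent.N929.EZ.Sl (Λ i) 0 0 w).card : ℝ) < 1 / 400000000 * m
          then (1 : ℝ) else 0 := by
      intro i
      rw [Finset.sum_boole]
    rw [Finset.sum_congr rfl fun i _ => e1 i, Finset.sum_comm]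
    have hw : ∀ w ∈ SW m,
        (∑ i, if ((Pool.Agent.N929.EZ.Sl (Λ i) 0 0 w).card : ℝ) < 1 / 400000000 * m
          then (1 : ℝ) else 0) ≤
          (if 4000 * BW (0 + 1) (m - m + 2) w < m - 0 then (1 : ℝ) else 0) * Fintype.card ι +
            Real.exp (-(η * m)) * Fintype.card ι := by
      intro w hwK
      rw [Finset.sum_boole]
      by_cases hb : 4000 * BW (0 + 1) (m - m + 2) w < m - 0
      · rw [if_pos hb, one_mul]
        have h4 : ((univ.filter fun i => ((Pool.Agent.N929.EZ.Sl (Λ i) 0 0 w).card : ℝ) <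
            1 / 400000000 * m).card : ℝ) ≤ Fintype.card ι := by
          exact_mod_cast Finset.card_le_univ _
        have h5 : 0 ≤ Real.exp (-(η * m)) * Fintype.card ι :=
          mul_nonneg (Real.exp_pos _).le hι
        linarith
      · rw [if_neg hb, zero_mul, zero_add]
        obtain ⟨P, hP1, hP2, hP3⟩ := plw Pool.Agent.N457.EX.plq (a := 0) (b := m) (by omega)
          le_rfl hwK
        have hPc : m ≤ 4000 * P.card := by omega
        have h5 := hs P (fun p hp => by
          have h3 := hP1 p hp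
          have h4 : (m : ℤ) ≤ N := by omega
          push_cast
          constructor
          · linarith [h3.1]
          · linarith [h3.2])
        have h6 : (univ.filter fun i => ((Pool.Agent.N929.EZ.Sl (Λ i) 0 0 w).card : ℝ) <
            1 / 400000000 * m) ⊆
            univ.filter (fun i => 100000 * (Λ i ∩ P).card < P.card) := by
          intro i hi
          rw [Finset.mem_filter] at hi ⊢
          refine ⟨Finset.mem_univ _, ?_⟩
          have hwl : w.length = m := len_SW m w hwK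
          have h7 : (Λ i ∩ P) ⊆ Pool.Agent.N929.EZ.Sl (Λ i) 0 0 w := by
            refine (hP2 (Λ i)).trans ?_
            unfold Pool.Agent.N929.EZ.Sl
            rw [hwl, Nat.sub_zero]
            exact OO_sub'
          have h8 := Finset.card_le_card h7
          have h9 := hi.2
          have h10 : (400000000 : ℝ) * ((Pool.Agent.N929.EZ.Sl (Λ i) 0 0 w).card : ℝ) < m := by
            linarith
          have h11 : 400000000 * (Pool.Agent.N929.EZ.Sl (Λ i) 0 0 w).card < m := by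
            exact_mod_cast h10
          omega
        have h7 : ((univ.filter fun i => ((Pool.Agent.N929.EZ.Sl (Λ i) 0 0 w).card : ℝ) <
            1 / 400000000 * m).card : ℝ) ≤
            ((univ.filter (fun i => 100000 * (Λ i ∩ P).card < P.card)).card : ℝ) := by
          exact_mod_cast Finset.card_le_card h6
        refine h7.trans (h5.trans ?_)
        refine mul_le_mul_of_nonneg_right (Real.exp_le_exp.2 ?_) hι
        have h8 : (m : ℝ) ≤ 4000 * P.card := by exact_mod_cast hPc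
        rw [hη]
        linarith
    refine (Finset.sum_le_sum hw).trans ?_
    rw [Finset.sum_add_distrib, ← Finset.sum_mul, Finset.sum_const, nsmul_eq_mul,
      Finset.sum_boole]
    have h4 : (((SW m).filter fun w => 4000 * BW (0 + 1) (m - m + 2) w < m - 0).card : ℝ) ≤
        B * S * (θ * μ) ^ m := by
      refine hF'.trans ?_
      have h5 : Real.exp (-(((m - 0 : ℕ) : ℝ) / 5000)) ≤ Real.exp (-(η * m)) := by
        apply Real.exp_le_exp.2
        rw [hη, Nat.sub_zero]
        have : (0 : ℝ) ≤ m := Nat.cast_nonneg _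
        linarith
      calc B * Real.exp (-(((m - 0 : ℕ) : ℝ) / 5000)) * ((SW m).card : ℝ)
          ≤ B * Real.exp (-(η * m)) * ((SW m).card : ℝ) := by gcongr
        _ = B * (((SW m).card : ℝ) * Real.exp (-(η * m))) := by ring
        _ ≤ B * (S * (θ * μ) ^ m) := mul_le_mul_of_nonneg_left (hSWe m) hB.le
        _ = _ := by ring
    have h6 := mul_le_mul_of_nonneg_right h4 hι
    have h7 := mul_le_mul_of_nonneg_right (hSWe m) hι
    have h8 : 0 ≤ S * Real.exp (η * (m₁ + 2)) + 1 := by positivity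
    have h9 : 0 ≤ (θ * μ) ^ m * Fintype.card ι := by positivity
    calc _ ≤ B * S * (θ * μ) ^ m * Fintype.card ι + S * (θ * μ) ^ m * Fintype.card ι := by
          refine add_le_add h6 (le_trans (le_of_eq ?_) h7)
          ring
      _ ≤ B * S * (θ * μ) ^ m * Fintype.card ι + S * (θ * μ) ^ m * Fintype.card ι +
          (S * Real.exp (η * (m₁ + 2)) + 1) * ((θ * μ) ^ m * Fintype.card ι) := by
          have := mul_nonneg h8 h9
          linarith
      _ = _ := by ring

/-- **Analytic continuation**, for functionals of the self-avoiding walks on the square lattice -/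
theorem ez_main (hμ : 1 ≤ μ) (hK : 0 ≤ K)
    (hup : ∀ m n : ℕ, 2 ≤ n → m ≤ n →
      ((SW m).card : ℝ) ≤ 4 * (μ ^ m * Real.exp (K * Real.log n ^ 2))) :
    ∃ c : ℝ, 0 < c ∧ ∀ (C₀ : ℝ) (p : ℕ), 0 ≤ C₀ → ∃ C : ℝ, 0 < C ∧ ∀ F : List Dir → ℂ,
      (∀ L, CF L → ∀ st fl, Pool.Agent.N929.EZ.Fill L 0 0 st fl →
        ∀ w, Pool.Agent.N929.EZ.Em L 0 0 w →
        RC (Pool.Agent.N929.EZ.Sl L 0 0 w) (fun U => F (fl w U))
          (C₀ * ((w.length : ℝ) + 1) ^ p)) →
      ∃ f : ℂ → ℂ, DifferentiableOn ℂ f (Om c μ 2) ∧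
        (∀ z : ℂ, μ * ‖z‖ < 1 → HasSum (fun n => (∑ w ∈ SW n, F w) * z ^ n) (f z)) ∧
        ∀ z ∈ Om c μ 2, z ≠ 0 → cs 2 z < 1 →
          Summable (fun n => aj SW C₀ p n * xx c μ 2 z ^ n) ∧
          ‖f z‖ ≤ C + ∑' n, aj SW C₀ p n * xx c μ 2 z ^ n := by
  obtain ⟨c, hc, h⟩ := main (by norm_num) len_SW hμ (gr_sw hμ hK hup) (few_ez hμ hK hup)
  refine ⟨c, hc, fun C₀ p hC₀ => ?_⟩
  obtain ⟨C, hC, h'⟩ := h C₀ p hC₀
  refine ⟨C, hC, fun F hF => h' F ?_⟩
  rintro D ⟨L, st, fl, hf, hL, rfl⟩ w hw ho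
  exact hF L hL st fl hf w ⟨by omega, hw, ho⟩

/-- real representations are complex representations -/
theorem RC.ofRpZ {E : Finset (ℤ × ℤ)} {Φ : Finset (ℤ × ℤ) → ℝ} {M : ℝ}
    (h : Pool.Agent.N929.EZ.Rp E Φ M) : RC E (fun U => ((Φ U : ℝ) : ℂ)) M := by
  obtain ⟨v, h1, h2⟩ := h
  refine ⟨fun T => (v T : ℂ), ?_, fun U hU => ?_⟩
  · refine le_trans (le_of_eq ?_) h1
    refine sum_congr rfl fun T _ => ?_
    rw [Complex.norm_real, Real.norm_eq_abs]
  · show ((Φ U : ℝ) : ℂ) = _
    rw [h2 U hU, Complex.ofReal_sum]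
    refine sum_congr rfl fun T _ => ?_
    split_ifs
    · rfl
    · exact Complex.ofReal_zero

end

end Pool.Agent.U198.AC
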