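import Pool.Agent.N929.AC.Ac

/-!
# Classes of objects with fillings: sums of functionals over the classes

A functional `F` which depends on the occupied slots through a combination of the indicator
functions of `U ∩ T = ∅` has class sums which are combinations of powers of `1 + z ^ s`.
-/

set_option autoImplicit false
set_option linter.unusedVariables false

namespace Pool.Agent.U198.AC

open Finset Filter Topology Pool.Agent.N929.AC
open scoped Classical

noncomputable section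

/-- the function `Φ` of a subset `U` of `E` is a combination of the indicator functions of
`U ∩ T = ∅`, `T ⊆ E`, with sum of the absolute values of the coefficients at most `M` -/
def RC {σ : Type} (E : Finset σ) (Φ : Finset σ → ℂ) (M : ℝ) : Prop :=
  ∃ v : Finset σ → ℂ, (∑ T ∈ E.powerset, ‖v T‖) ≤ M ∧
    ∀ U ⊆ E, Φ U = ∑ T ∈ E.powerset, if Disjoint T U then v T else 0

/-- classes `K n` of objects of size `n`, a set of slots `Sl w`, some of which, `Oc w`, are
occupied; `st w` frees all slots, `fl w U` occupies the slots in `U` -/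
structure FD {α : Type} (K : ℕ → Finset α) (len : α → ℕ) (s : ℕ) (σ : Type) where
  Sl : α → Finset σ
  Oc : α → Finset σ
  st : α → α
  fl : α → Finset σ → α
  oc_sl : ∀ w, w ∈ K (len w) → Oc w ⊆ Sl w
  st_K : ∀ w, w ∈ K (len w) → st w ∈ K (len (st w))
  st_oc : ∀ w, w ∈ K (len w) → Oc (st w) = ∅
  st_len : ∀ w, w ∈ K (len w) → len (st w) + s * (Oc w).card = len w
  st_sl : ∀ w, w ∈ K (len w) → Sl (st w) = Sl w
  fl_st : ∀ w, w ∈ K (len w) → fl (st w) (Oc w) = w
  fl_K : ∀ w, w ∈ K (len w) → Oc w = ∅ → ∀ U, U ⊆ Sl w → fl w U ∈ K (len w + s * U.card)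
  fl_oc : ∀ w, w ∈ K (len w) → Oc w = ∅ → ∀ U, U ⊆ Sl w → Oc (fl w U) = U
  st_fl : ∀ w, w ∈ K (len w) → Oc w = ∅ → ∀ U, U ⊆ Sl w → st (fl w U) = w

variable {α σ : Type} {K : ℕ → Finset α} {len : α → ℕ} {s : ℕ}

/-- the objects of size at most `N` without occupied slots -/
def Co (D : FD K len s σ) (N : ℕ) : Finset α :=
  ((range (N + 1)).biUnion K).filter (fun w => D.Oc w = ∅)

/-- the generating function of the classes of `Co` -/
def PF (D : FD K len s σ) (F : α → ℂ) (N : ℕ) (z : ℂ) : ℂ :=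
  ∑ w ∈ Co D N, z ^ len w * ∑ U ∈ (D.Sl w).powerset, F (D.fl w U) * (z ^ s) ^ U.card

theorem mem_Co (hlen : ∀ n w, w ∈ K n → len w = n) {D : FD K len s σ} {N : ℕ} {w : α} :
    w ∈ Co D N ↔ (w ∈ K (len w) ∧ D.Oc w = ∅) ∧ len w ≤ N := by
  unfold Co
  rw [mem_filter, mem_biUnion]
  constructor
  · rintro ⟨⟨n, hn, hw⟩, ho⟩
    have h1 := hlen n w hw
    rw [mem_range] at hn
    refine ⟨⟨by rw [h1]; exact hw, ho⟩, by omega⟩
  · rintro ⟨⟨hw, ho⟩, hN⟩
    exact ⟨⟨len w, by rw [mem_range]; omega, hw⟩, ho⟩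

/-- the objects of the classes of `Co` -/
theorem expT (hlen : ∀ n w, w ∈ K n → len w = n) (D : FD K len s σ) (N : ℕ) :
    ∃ T : Finset α, (∀ w ∈ T, w ∈ K (len w)) ∧ (∀ n ≤ N, K n ⊆ T) ∧
      (∀ (F : α → ℂ) (z : ℂ), PF D F N z = ∑ w ∈ T, F w * z ^ len w) ∧
      ∀ (G : α → ℝ) (x : ℝ), (∑ w ∈ Co D N, ∑ U ∈ (D.Sl w).powerset,
        G (D.fl w U) * x ^ len (D.fl w U)) = ∑ w ∈ T, G w * x ^ len w := by
  have hfl : ∀ w U, w ∈ K (len w) → D.Oc w = ∅ → U ⊆ D.Sl w →
      len (D.fl w U) = len w + s * U.card :=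
    fun w U hw ho hU => hlen _ _ (D.fl_K w hw ho U hU)
  have hinj : Set.InjOn (fun x : (_ : α) × Finset σ => D.fl x.1 x.2)
      (↑((Co D N).sigma (fun w => (D.Sl w).powerset)) : Set ((_ : α) × Finset σ)) := by
    rintro ⟨w, U⟩ hx ⟨w', U'⟩ hx' hxx
    rw [mem_coe, mem_sigma, mem_powerset] at hx hx'
    simp only at hx hx' hxx
    have hw := (mem_Co hlen).1 hx.1
    have hw' := (mem_Co hlen).1 hx'.1
    have e1 : w = w' := by
      rw [← D.st_fl w hw.1.1 hw.1.2 U hx.2, ← D.st_fl w' hw'.1.1 hw'.1.2 U' hx'.2, hxx]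
    have e2 : U = U' := by
      rw [← D.fl_oc w hw.1.1 hw.1.2 U hx.2, ← D.fl_oc w' hw'.1.1 hw'.1.2 U' hx'.2, hxx]
    subst e1
    subst e2
    rfl
  refine ⟨((Co D N).sigma (fun w => (D.Sl w).powerset)).image (fun x => D.fl x.1 x.2),
    ?_, ?_, ?_, ?_⟩
  · intro v hv
    rw [mem_image] at hv
    obtain ⟨⟨w, U⟩, hx, rfl⟩ := hv
    rw [mem_sigma, mem_powerset] at hx
    simp only at hx ⊢
    have hw := (mem_Co hlen).1 hx.1
    rw [hfl w U hw.1.1 hw.1.2 hx.2]
    exact D.fl_K w hw.1.1 hw.1.2 U hx.2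
  · intro n hn v hv
    have h0 := hlen n v hv
    have hv' : v ∈ K (len v) := by rw [h0]; exact hv
    rw [mem_image]
    refine ⟨⟨D.st v, D.Oc v⟩, ?_, D.fl_st v hv'⟩
    rw [mem_sigma, mem_powerset]
    simp only
    refine ⟨(mem_Co hlen).2 ⟨⟨D.st_K v hv', D.st_oc v hv'⟩, ?_⟩, ?_⟩
    · have := D.st_len v hv'
      omega
    · rw [D.st_sl v hv']
      exact D.oc_sl v hv'
  · intro F z
    rw [sum_image hinj, sum_sigma]
    unfold PF
    refine sum_congr rfl fun w hw => ?_
    have hw' := (mem_Co hlen).1 hw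
    rw [mul_sum]
    refine sum_congr rfl fun U hU => ?_
    rw [mem_powerset] at hU
    rw [hfl w U hw'.1.1 hw'.1.2 hU, pow_add, pow_mul]
    ring
  · intro G x
    rw [sum_image hinj, sum_sigma]

/-- the sum over the subsets of a combination of indicator functions -/
theorem RC.cls {E : Finset σ} {Φ : Finset σ → ℂ} {M : ℝ} (h : RC E Φ M) (y : ℂ) (b : ℝ)
    (hb : 1 ≤ b) (hy : ‖1 + y‖ ≤ b) :
    ‖∑ U ∈ E.powerset, Φ U * y ^ U.card‖ ≤ M * b ^ E.card := by
  obtain ⟨v, h1, h2⟩ := h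
  have h3 : ∑ U ∈ E.powerset, Φ U * y ^ U.card =
      ∑ T ∈ E.powerset, v T * (1 + y) ^ (E \ T).card := by
    calc ∑ U ∈ E.powerset, Φ U * y ^ U.card
        = ∑ U ∈ E.powerset, ∑ T ∈ E.powerset, (if Disjoint T U then v T else 0) * y ^ U.card := by
          refine sum_congr rfl fun U hU => ?_
          rw [h2 U (mem_powerset.1 hU), sum_mul]
      _ = ∑ T ∈ E.powerset, ∑ U ∈ E.powerset, (if Disjoint T U then v T else 0) * y ^ U.card :=
          sum_comm
      _ = _ := by
          refine sum_congr rfl fun T hT => ?_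
          have e1 : ∀ U ∈ E.powerset, (if Disjoint T U then v T else 0) * y ^ U.card =
              if Disjoint T U then v T * y ^ U.card else 0 := by
            intro U _
            split_ifs
            · rfl
            · rw [zero_mul]
          rw [sum_congr rfl e1, ← sum_filter]
          have e2 : E.powerset.filter (fun U => Disjoint T U) = (E \ T).powerset := by
            ext U
            rw [mem_filter, mem_powerset, mem_powerset, subset_sdiff]
            exact ⟨fun h => ⟨h.1, h.2.symm⟩, fun h => ⟨h.1, h.2.symm⟩⟩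
          rw [e2, ← mul_sum]
          have := Finset.sum_pow_mul_eq_add_pow y 1 (E \ T)
          simp only [one_pow, mul_one] at this
          rw [this, add_comm]
  rw [h3]
  have hM : 0 ≤ M := (sum_nonneg (fun _ _ => norm_nonneg _)).trans h1
  calc ‖∑ T ∈ E.powerset, v T * (1 + y) ^ (E \ T).card‖
      ≤ ∑ T ∈ E.powerset, ‖v T‖ * b ^ E.card := by
        refine (norm_sum_le _ _).trans (sum_le_sum fun T hT => ?_)
        rw [norm_mul, norm_pow]
        refine mul_le_mul_of_nonneg_left ?_ (norm_nonneg _)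
        calc ‖1 + y‖ ^ (E \ T).card ≤ b ^ (E \ T).card := pow_le_pow_left₀ (norm_nonneg _) hy _
          _ ≤ b ^ E.card := pow_le_pow_right₀ hb (card_le_card sdiff_subset)
    _ = (∑ T ∈ E.powerset, ‖v T‖) * b ^ E.card := by rw [sum_mul]
    _ ≤ M * b ^ E.card := mul_le_mul_of_nonneg_right h1 (by positivity)

theorem RC.bd {E : Finset σ} {Φ : Finset σ → ℂ} {M : ℝ} (h : RC E Φ M) {U : Finset σ}
    (hU : U ⊆ E) : ‖Φ U‖ ≤ M := by
  obtain ⟨v, h1, h2⟩ := h
  rw [h2 U hU]
  refine (norm_sum_le _ _).trans ((sum_le_sum fun T _ => ?_).trans h1)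
  split_ifs
  · exact le_rfl
  · rw [norm_zero]
    exact norm_nonneg _

end

end Pool.Agent.U198.AC
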