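import Pool.Agent.U198.AC.Cr
import Pool.Agent.N929.AC.Grid2

/-!
# Functions of maxima, first and last vertices: walks as functions
-/

set_option autoImplicit false
set_option linter.unusedVariables false

namespace Pool.Agent.U198.AC

open Finset Filter Topology Pool.Agent.N929.AC Pool.Agent.N929.EG
open scoped Classical
open TH966.AK Pool.Agent.R965.HP

noncomputable section

theorem ad_true (A : ℤ × ℤ → ℤ × ℤ → Prop) : AD A (fun _ => True) = A := by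
  funext p q
  unfold AD
  simp

theorem mx_plane (L : H982.Lat) {A : ℤ × ℤ → ℤ × ℤ → Prop} (Z : Rule A) (hs1 : 1 ≤ Z.s)
    {ψ : ℤ × ℤ → ℤ × ℤ} {R : ℕ → ℤ × ℤ → Prop} (H : @H982.Coord L A ψ R)
    (hcl : ∀ D : ℤ × ℤ → Prop, ∀ U U', Z.T U U' → (∀ x ∈ U', D x) → ∀ x ∈ U, D x)
    (hp : ∃ (M0 : ℕ) (ρ C0 : ℝ), 1 ≤ M0 ∧ 0 ≤ ρ ∧ ρ < @H982.mu L ∧ ∀ n : ℕ,
      (((Kw A n).filter (fun w => M0 * (Z.B w).card ≤ n)).card : ℝ) ≤ C0 * ρ ^ n) :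
    1 ≤ @H982.mu L ∧ ∃ c : ℝ, 0 < c ∧ ∀ (k m r p : ℕ) (B : ℝ) (h : Fin r → ℤ × ℤ → ℝ)
      (φ : (Fin r → ℝ) → (Fin (k + 1) → ℤ × ℤ) → (Fin (m + 1) → ℤ × ℤ) → ℝ),
      (∀ n, ∀ γ ∈ wks A n, |φ (fun i => ⨆ j, h i (γ j)) (fun i => γ ⟨min i n, by omega⟩)
        (fun j => γ ⟨n - j, by omega⟩)| ≤ B * ((n : ℝ) + 1) ^ p) →
      ∃ f : ℂ → ℂ, DifferentiableOn ℂ f (Om c (@H982.mu L) Z.s) ∧
        ∀ z : ℂ, @H982.mu L * ‖z‖ < 1 → HasSum (fun n => ((∑ᶠ γ ∈ wks A n,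
          φ (fun i => ⨆ j, h i (γ j)) (fun i => γ ⟨min i n, by omega⟩)
            (fun j => γ ⟨n - j, by omega⟩) : ℝ) : ℂ) * z ^ n) (f z) := by
  obtain ⟨K, G⟩ := full_gr L Z hs1 H hp
  obtain ⟨hμ, c, hc, h⟩ := mx_dom G one_le_two (fun U U' hT x hx =>
    hcl (fun x => x ∈ U') U U' hT.1 (fun x hx => hx) x hx)
  refine ⟨hμ, c, hc, fun k m r p B hh φ hφ => ?_⟩
  have key : ∀ (n : ℕ) (γ : Fin (n + 1) → ℤ × ℤ),
      φ (fun i => ⨆ j, hh i (γ j)) (fun i => γ ⟨min i n, by omega⟩)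
        (fun j => γ ⟨n - j, by omega⟩) =
      (fun (v : Fin r → ℝ) (T T' : List (ℤ × ℤ)) => ofL (φ v) T T')
        (fun i => lmx (hh i) (List.ofFn γ)) ((List.ofFn γ).take (k + 1))
        ((List.ofFn γ).reverse.take (m + 1)) := by
    intro n γ
    simp only [lmx_ofFn]
    rw [ofL_ofFn]
  obtain ⟨f, h1, h2⟩ := h k m r p B hh
    (fun (v : Fin r → ℝ) (T T' : List (ℤ × ℤ)) => ofL (φ v) T T') (fun n w hw => by
      have hw2 : w ∈ (Kw (AD A (fun _ => True)) n : Set (List (ℤ × ℤ))) := hw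
      rw [← image_wks (ruleD Z (fun _ => True))] at hw2
      obtain ⟨γ, hγ, rfl⟩ := hw2
      rw [ad_true] at hγ
      have h3 := hφ n γ hγ
      rw [key n γ] at h3
      exact h3)
  refine ⟨f, h1, fun z hz => ?_⟩
  refine (congrArg (fun g => HasSum g (f z)) ?_).mp (h2 z hz)
  funext n
  congr 2
  have e : wks A n = wks (AD A (fun _ => True)) n := by rw [ad_true]
  rw [e]
  exact (sum_list (ruleD Z (fun _ => True)) n _ _ fun γ => key n γ).symm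

end

end Pool.Agent.U198.AC
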