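import Pool.Agent.U198.AC.Pg
import Pool.Agent.N929.EZ.Area
import Pool.Agent.N929.EZ.Box

/-!
# The area and the extents of polygons
-/

set_option autoImplicit false
set_option linter.unusedVariables false

namespace Pool.Agent.U198.AC

open Finset Filter Topology Pool.Agent.N929.AC
open Pool.Agent.H976R2 Pool.Agent.H976R2.Dir
open Pool.Agent.N929.EX Pool.Agent.N929.EY
open Pool.Agent.N929.EZ (Rp sl_card sg sg_abs ar_fl mxx mnx mxy mny Em Fill)
open Pool.Agent.H739K (KP ar)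
open scoped Classical

noncomputable section

/-- the area of a closed word -/
theorem ar_le {w : List Dir} (hw : w ∈ SW w.length) (hs : sq w = 1) (h3 : 3 ≤ w.length) :
    (ar w : ℝ) ≤ 4 * ((w.length : ℝ) + 1) ^ 2 := by
  have hl := Pool.Agent.H739K.F2aux.loop_of Pool.Agent.H739K.CONV_proof h3
    (mem_SW.1 hw).2 hs
  have h4 : ar w ≤ (2 * (w.length + 1)) ^ 2 := by
    have : NeZero (w.length + 1) := ⟨by omega⟩
    exact Pool.Agent.H924P.all_area hl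
  have : (ar w : ℝ) ≤ (2 * ((w.length : ℝ) + 1)) ^ 2 := by exact_mod_cast h4
  nlinarith

/-- the representation of the area -/
theorem rp_ar {L : Finset (ℤ × ℤ)} (hL : CF L) {st : List Dir → List Dir}
    {fl : List Dir → Finset (ℤ × ℤ) → List Dir} (hfl : Fill L 0 0 st fl) {w : List Dir}
    (hw : Em L 0 0 w) (hs : sq w = 1) (h3 : 3 ≤ w.length) :
    Rp (Pool.Agent.N929.EZ.Sl L 0 0 w) (fun U => (ar (fl w U) : ℝ))
      (6 * ((w.length : ℝ) + 1) ^ 2) := by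
  have h1 := (Rp.const (E := Pool.Agent.N929.EZ.Sl L 0 0 w) (ar w : ℝ)).add
    (Rp.lin (E := Pool.Agent.N929.EZ.Sl L 0 0 w) (sg w))
  refine (h1.mono ?_).congr (fun U hU => ar_fl hL hfl hw h3 hs hU)
  rw [abs_of_nonneg (Nat.cast_nonneg (α := ℝ) (ar w)), sum_congr rfl (fun q _ => sg_abs w q),
    sum_const, nsmul_eq_mul, mul_one]
  have h2 := ar_le hw.2.1 hs h3
  have h4 : ((Pool.Agent.N929.EZ.Sl L 0 0 w).card : ℝ) ≤ (w.length : ℝ) + 1 := by
    exact_mod_cast sl_card hL w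
  have h5 : (0 : ℝ) ≤ w.length := Nat.cast_nonneg _
  nlinarith

/-- the generating functions of the moments of the area -/
theorem rp_ar_pow {L : Finset (ℤ × ℤ)} (hL : CF L) {st : List Dir → List Dir}
    {fl : List Dir → Finset (ℤ × ℤ) → List Dir} (hfl : Fill L 0 0 st fl) {w : List Dir}
    (hw : Em L 0 0 w) (hs : sq w = 1) (h3 : 3 ≤ w.length) (k : ℕ) :
    Rp (Pool.Agent.N929.EZ.Sl L 0 0 w) (fun U => (ar (fl w U) : ℝ) ^ k)
      (6 ^ k * ((w.length : ℝ) + 1) ^ (2 * k)) := by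
  have h := (rp_ar hL hfl hw hs h3).pow k
  rwa [mul_pow, ← pow_mul] at h

/-- functions of the two extents -/
theorem rp_ext (φ : ℤ → ℤ → ℝ) (B : ℝ) (p : ℕ) (hB : 0 ≤ B)
    (hφ : ∀ a b : ℤ, 0 ≤ a → 0 ≤ b → |φ a b| ≤ B * (1 + (a : ℝ) + b) ^ p)
    {L : Finset (ℤ × ℤ)} (hL : CF L) {st : List Dir → List Dir}
    {fl : List Dir → Finset (ℤ × ℤ) → List Dir} (hfl : Fill L 0 0 st fl) {w : List Dir}
    (hw : Em L 0 0 w) :
    Rp (Pool.Agent.N929.EZ.Sl L 0 0 w)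
      (fun U => φ (mxx (fl w U) - mnx (fl w U)) (mxy (fl w U) - mny (fl w U)))
      (81 * (B * 5 ^ p) * ((w.length : ℝ) + 1) ^ p) := by
  have h := fun U hU => Pool.Agent.N426.EZ.xt L hL 0 0 st fl hfl w hw U hU
  obtain ⟨M, hM⟩ : ∃ M : ℝ, M = B * 5 ^ p * ((w.length : ℝ) + 1) ^ p := ⟨_, rfl⟩
  obtain ⟨x, hx⟩ : ∃ x : ℤ, x = mxx w - mnx w := ⟨_, rfl⟩
  obtain ⟨y, hy⟩ : ∃ y : ℤ, y = mxy w - mny w := ⟨_, rfl⟩
  have hx0 : 0 ≤ x := by rw [hx]; have := (Pool.Agent.N929.EZ.ext_nonneg w).1; omega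
  have hy0 : 0 ≤ y := by rw [hy]; have := (Pool.Agent.N929.EZ.ext_nonneg w).2; omega
  have hx1 : (x : ℝ) ≤ w.length := by
    have := (Pool.Agent.N929.EZ.ext_le w).1
    rw [← hx] at this
    exact_mod_cast this
  have hy1 : (y : ℝ) ≤ w.length := by
    have := (Pool.Agent.N929.EZ.ext_le w).2
    rw [← hy] at this
    exact_mod_cast this
  have hbd : ∀ a b : ℤ, 0 ≤ a → a ≤ 2 → 0 ≤ b → b ≤ 2 → |φ (x + a) (y + b)| ≤ M := by
    intro a b ha ha2 hb hb2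
    refine (hφ _ _ (by omega) (by omega)).trans ?_
    rw [hM, mul_assoc, ← mul_pow]
    refine mul_le_mul_of_nonneg_left (pow_le_pow_left₀ ?_ ?_ p) hB
    · have h1 : (0 : ℝ) ≤ ((x + a : ℤ) : ℝ) := by exact_mod_cast (by omega : 0 ≤ x + a)
      have h2 : (0 : ℝ) ≤ ((y + b : ℤ) : ℝ) := by exact_mod_cast (by omega : 0 ≤ y + b)
      linarith
    · have h1 : ((x + a : ℤ) : ℝ) ≤ (w.length : ℝ) + 2 := by
        have : (a : ℝ) ≤ 2 := by exact_mod_cast ha2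
        push_cast
        linarith
      have h2 : ((y + b : ℤ) : ℝ) ≤ (w.length : ℝ) + 2 := by
        have : (b : ℝ) ≤ 2 := by exact_mod_cast hb2
        push_cast
        linarith
      have h5 : (0 : ℝ) ≤ w.length := Nat.cast_nonneg _
      linarith
  have hM0 : 0 ≤ M := by rw [hM]; positivity
  have h1 : ∀ a b : ℤ, 0 ≤ a → a ≤ 2 → 0 ≤ b → b ≤ 2 →
      Rp (Pool.Agent.N929.EZ.Sl L 0 0 w) (fun _ => φ (x + a) (y + b)) M := fun a b ha ha2 hb hb2 =>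
    (Rp.const _).mono (hbd a b ha ha2 hb hb2)
  -- the four hits
  have h2 : ∀ a b : ℤ, 0 ≤ a → a ≤ 2 → 0 ≤ b → b ≤ 1 →
      Rp (Pool.Agent.N929.EZ.Sl L 0 0 w) (fun U => φ (x + a)
        (y + (b + Pool.Agent.N929.EZ.hitI (fun q => q.2 + 1 = mny w) U))) (3 * M) :=
    fun a b ha ha2 hb hb2 => Rp.cases (fun q => q.2 + 1 = mny w)
      (fun d _ => φ (x + a) (y + (b + d)))
      (h1 a (b + 0) ha ha2 (by omega) (by omega)) (h1 a (b + 1) ha ha2 (by omega) (by omega))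
  have h3 : ∀ a : ℤ, 0 ≤ a → a ≤ 2 →
      Rp (Pool.Agent.N929.EZ.Sl L 0 0 w) (fun U => φ (x + a)
        (y + (Pool.Agent.N929.EZ.hitI (fun q => q.2 = mxy w) U +
          Pool.Agent.N929.EZ.hitI (fun q => q.2 + 1 = mny w) U))) (3 * (3 * M)) :=
    fun a ha ha2 => Rp.cases (fun q => q.2 = mxy w)
      (fun c U => φ (x + a) (y + (c + Pool.Agent.N929.EZ.hitI (fun q => q.2 + 1 = mny w) U)))
      (h2 a 0 ha ha2 le_rfl (by omega)) (h2 a 1 ha ha2 (by omega) le_rfl)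
  have h4 : ∀ a : ℤ, 0 ≤ a → a ≤ 1 →
      Rp (Pool.Agent.N929.EZ.Sl L 0 0 w) (fun U => φ (x +
        (a + Pool.Agent.N929.EZ.hitI (fun q => q.1 + 1 = mnx w) U))
        (y + (Pool.Agent.N929.EZ.hitI (fun q => q.2 = mxy w) U +
          Pool.Agent.N929.EZ.hitI (fun q => q.2 + 1 = mny w) U))) (3 * (3 * (3 * M))) :=
    fun a ha ha2 => Rp.cases (fun q => q.1 + 1 = mnx w)
      (fun b U => φ (x + (a + b)) (y + (Pool.Agent.N929.EZ.hitI (fun q => q.2 = mxy w) U +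
          Pool.Agent.N929.EZ.hitI (fun q => q.2 + 1 = mny w) U)))
      (h3 (a + 0) (by omega) (by omega)) (h3 (a + 1) (by omega) (by omega))
  have h5 : Rp (Pool.Agent.N929.EZ.Sl L 0 0 w) (fun U => φ (x +
        (Pool.Agent.N929.EZ.hitI (fun q => q.1 = mxx w) U +
          Pool.Agent.N929.EZ.hitI (fun q => q.1 + 1 = mnx w) U))
        (y + (Pool.Agent.N929.EZ.hitI (fun q => q.2 = mxy w) U +
          Pool.Agent.N929.EZ.hitI (fun q => q.2 + 1 = mny w) U))) (3 * (3 * (3 * (3 * M)))) :=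
    Rp.cases (fun q => q.1 = mxx w)
      (fun a U => φ (x + (a + Pool.Agent.N929.EZ.hitI (fun q => q.1 + 1 = mnx w) U))
        (y + (Pool.Agent.N929.EZ.hitI (fun q => q.2 = mxy w) U +
          Pool.Agent.N929.EZ.hitI (fun q => q.2 + 1 = mny w) U)))
      (h4 0 le_rfl (by omega)) (h4 1 (by omega) le_rfl)
  refine (h5.mono (le_of_eq (by rw [hM]; ring))).congr (fun U hU => ?_)
  obtain ⟨a1, a2, a3, a4, -⟩ := h U hU
  have e1 : mxx (fl w U) - mnx (fl w U) = x +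
        (Pool.Agent.N929.EZ.hitI (fun q => q.1 = mxx w) U +
          Pool.Agent.N929.EZ.hitI (fun q => q.1 + 1 = mnx w) U) := by
    rw [a1, a2, hx]
    simp only [Pool.Agent.N929.EZ.hitI_eq]
    ring
  have e2 : mxy (fl w U) - mny (fl w U) = y +
        (Pool.Agent.N929.EZ.hitI (fun q => q.2 = mxy w) U +
          Pool.Agent.N929.EZ.hitI (fun q => q.2 + 1 = mny w) U) := by
    rw [a3, a4, hy]
    simp only [Pool.Agent.N929.EZ.hitI_eq]
    ring
  rw [e1, e2]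

end

end Pool.Agent.U198.AC
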