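import Pool.Agent.U198.AC.Ez
import Pool.Agent.N929.EZ.Poly3
import Pool.Agent.N929.AC.Prim
import Pool.Agent.N353.AC.PRIM
import Pool.Agent.H739K.F2

/-!
# Analytic continuation for functionals: self-avoiding polygons
-/

set_option autoImplicit false
set_option linter.unusedVariables false

namespace Pool.Agent.U198.AC

open Finset Filter Topology Pool.Agent.N929.AC
open Pool.Agent.H976R2 Pool.Agent.H976R2.Dir
open Pool.Agent.N929.EX Pool.Agent.N929.EY
open Pool.Agent.N929.EZ (cl_iv no_slots)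
open Pool.Agent.H739K (KP)
open scoped Classical

noncomputable section

/-- properties of the domain -/
theorem dom_fact {c μ : ℝ} {s : ℕ} (hc : 0 < c) (hμ : 1 ≤ μ) (hs : 1 ≤ s) :
    IsOpen (Om c μ s) ∧ IsPreconnected (Om c μ s) ∧ (∀ z : ℂ, μ * ‖z‖ < 1 → z ∈ Om c μ s) ∧
    ∀ z : ℂ, μ * ‖z‖ = 1 → z ^ s ≠ (‖z‖ : ℂ) ^ s → z ∈ Om c μ s := by
  obtain ⟨h1, h2, h3, -⟩ := s_omg c μ s hc hμ hs
  exact ⟨h1, h2, h3, fun z hz h => (mem_Om hc hz h).1⟩

/-- the coefficients of the generating functions of polygons -/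
def pw (G : List Dir → ℝ) (m : ℕ) : ℝ :=
  if Even m ∧ 4 ≤ m then (∑ w ∈ KP (m - 1), G w) / (2 * (m : ℝ)) else 0

theorem KP_emp {n : ℕ} (hn : n % 2 = 0) : KP n = ∅ := by
  rw [eq_empty_iff_forall_notMem]
  intro w hw
  rw [Pool.Agent.H739K.KP, mem_filter, Pool.Agent.H976R2.mem_SW] at hw
  obtain ⟨⟨h1, -⟩, h2⟩ := hw
  have h3 := Pool.Agent.H739K.F2aux.par w
  unfold Pool.Agent.H976R2.sq at h2
  have h4 : Pool.Agent.H976R2.wX w ^ 2 + Pool.Agent.H976R2.wY w ^ 2 = 1 := by exact_mod_cast h2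
  rw [h1] at h3
  have h5 : (Pool.Agent.H976R2.wX w + Pool.Agent.H976R2.wY w) % 2 = 0 := by omega
  obtain ⟨k, hk⟩ : ∃ k, Pool.Agent.H976R2.wX w + Pool.Agent.H976R2.wY w = 2 * k :=
    ⟨(Pool.Agent.H976R2.wX w + Pool.Agent.H976R2.wY w) / 2, by omega⟩
  have h6 : Pool.Agent.H976R2.wX w = 2 * k - Pool.Agent.H976R2.wY w := by omega
  rw [h6] at h4
  have h7 : 2 * (2 * k ^ 2 - 2 * k * Pool.Agent.H976R2.wY w + Pool.Agent.H976R2.wY w ^ 2) = 1 := by
    linarith
  omega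

/-- the functional on closed words of length at least three -/
def FG (G : List Dir → ℝ) (w : List Dir) : ℝ := if sq w = 1 ∧ 3 ≤ w.length then G w else 0

theorem sum_FG (G : List Dir → ℝ) {n : ℕ} (hn : 3 ≤ n) :
    ∑ w ∈ SW n, FG G w = ∑ w ∈ KP n, G w := by
  unfold KP
  rw [sum_filter]
  refine sum_congr rfl fun w hw => ?_
  have hl := len_SW n w hw
  unfold FG
  rw [hl]
  by_cases h : sq w = 1 <;> simp [h, hn]

/-- **Analytic continuation** for functionals of polygons -/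
theorem pg_main : ∃ μ : ℝ, 1 ≤ μ ∧
    Tendsto (fun n : ℕ => ((SW n).card : ℝ) ^ (1 / (n : ℝ))) atTop (𝓝 μ) ∧
    ∃ δ : ℝ, 0 < δ ∧
    (IsOpen (Om δ μ 2) ∧ IsPreconnected (Om δ μ 2) ∧ (∀ z : ℂ, μ * ‖z‖ < 1 → z ∈ Om δ μ 2) ∧
      ∀ z : ℂ, μ * ‖z‖ = 1 → z ^ 2 ≠ (‖z‖ : ℂ) ^ 2 → z ∈ Om δ μ 2) ∧
    ∀ (G : List Dir → ℝ) (C₀ : ℝ) (p : ℕ), 0 ≤ C₀ →
      (∀ L, CF L → ∀ st fl, Pool.Agent.N929.EZ.Fill L 0 0 st fl →
        ∀ w, Pool.Agent.N929.EZ.Em L 0 0 w → sq w = 1 → 3 ≤ w.length →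
          Pool.Agent.N929.EZ.Rp (Pool.Agent.N929.EZ.Sl L 0 0 w) (fun U => G (fl w U))
            (C₀ * ((w.length : ℝ) + 1) ^ p)) →
      ∃ F : ℂ → ℂ, Ext δ μ 2 (pw G) F := by
  obtain ⟨μ, K, hμ, hK, hlow, hupp⟩ := Pool.Agent.N348.EX.up
  have hμ1 : 1 ≤ μ := by linarith
  obtain ⟨c, hc, h⟩ := ez_main hμ1 hK hupp
  refine ⟨μ, hμ1, Pool.Agent.N929.EZ.root_lim hμ hK hlow hupp, c, hc,
    dom_fact hc hμ1 (by norm_num), fun G C₀ p hC₀ hG => ?_⟩
  obtain ⟨C, -, h'⟩ := h C₀ p hC₀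
  obtain ⟨f, f1, f2, -⟩ := h' (fun w => ((FG G w : ℝ) : ℂ)) (fun L hL st fl hfl w hw => by
    have hcl : ∀ U ⊆ Pool.Agent.N929.EZ.Sl L 0 0 w, Pool.Agent.N929.EZ.cl (fl w U) = Pool.Agent.N929.EZ.cl w := fun U hU =>
      Pool.Agent.N929.EZ.fl_inv hfl (D := Set.univ) (fun _ _ _ _ => Set.mem_univ _)
        (cl_iv Set.univ) hw hU
    have hz : (0 : ℝ) ≤ C₀ * ((w.length : ℝ) + 1) ^ p := by positivity
    have key : Pool.Agent.N929.EZ.Rp (Pool.Agent.N929.EZ.Sl L 0 0 w)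
        (fun U => FG G (fl w U)) (C₀ * ((w.length : ℝ) + 1) ^ p) := by
      by_cases hs : sq w = 1
      · by_cases h3 : 3 ≤ w.length
        · refine (hG L hL st fl hfl w hw hs h3).congr (fun U hU => ?_)
          have e1 := hcl U hU
          have e2 : sq (fl w U) = 1 := by
            unfold Pool.Agent.N929.EZ.cl at e1
            rw [if_pos hs] at e1
            by_contra hcon
            rw [if_neg hcon] at e1
            exact zero_ne_one e1
          unfold FG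
          rw [if_pos ⟨e2, by rw [hfl.fl_len w U hw hU]; omega⟩]
        · have hS := no_slots (L := L) h3
          refine (Pool.Agent.N929.EZ.Rp.zero.mono hz).congr (fun U hU => ?_)
          rw [hS, subset_empty] at hU
          subst hU
          rw [hfl.fl_empty w hw]
          unfold FG
          rw [if_neg (fun h => h3 h.2)]
      · refine (Pool.Agent.N929.EZ.Rp.zero.mono hz).congr (fun U hU => ?_)
        have e1 := hcl U hU
        have e2 : ¬ sq (fl w U) = 1 := by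
          intro hcon
          unfold Pool.Agent.N929.EZ.cl at e1
          rw [if_neg hs, if_pos hcon] at e1
          exact one_ne_zero e1
        unfold FG
        rw [if_neg (fun h => e2 h.1)]
    exact RC.ofRpZ key)
  have f3 : Ext c μ 2 (fun n => ∑ w ∈ SW n, FG G w) f := by
    refine ⟨f1, fun z hz => ?_⟩
    have f4 := f2 z hz
    push_cast
    exact f4
  refine ext_prim Pool.Agent.N353.AC.prim hc hμ1 (by norm_num) f3 3 (fun n hn => ?_)
  beta_reduce
  rw [sum_FG G hn]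
  unfold pw
  rcases Nat.even_or_odd n with he | ho
  · rw [if_neg (fun h => by have := h.1; rw [Nat.even_add_one] at this; exact this he),
      KP_emp (Nat.even_iff.1 he), sum_empty, zero_div]
  · rw [if_pos ⟨by rw [Nat.even_add_one]; exact Nat.not_even_iff_odd.2 ho, by omega⟩,
      Nat.add_sub_cancel]
    push_cast
    rfl

end

end Pool.Agent.U198.AC
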