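import Pool.Agent.U198.AC.Main
import Pool.Agent.N929.EG.RpA

/-!
# Analytic continuation for functionals: systems of local moves
-/

set_option autoImplicit false
set_option linter.unusedVariables false

namespace Pool.Agent.U198.AC

open Finset Filter Topology Pool.Agent.N929.AC Pool.Agent.N929.EG
open scoped Classical

noncomputable section

variable {α σ : Type}

/-- the fillings of a family of places without conflicts -/
def fdOf (Y : TS α σ) (L : Finset σ) (st : α → α) (fl : α → Finset σ → α) (h : Fill Y L st fl) :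
    FD Y.K Y.len Y.s σ where
  Sl := Pool.Agent.N929.EG.Sl Y L
  Oc := Pool.Agent.N929.EG.Oc Y L
  st := st
  fl := fl
  oc_sl := fun w hw q hq => by
    unfold Pool.Agent.N929.EG.Oc at hq
    unfold Pool.Agent.N929.EG.Sl
    rw [mem_filter] at hq ⊢
    exact ⟨hq.1, Or.inr hq.2⟩
  st_K := fun w hw => (h.st_em w hw).1
  st_oc := fun w hw => (h.st_em w hw).2
  st_len := h.st_len
  st_sl := h.st_sl
  fl_st := h.fl_st
  fl_K := fun w hw ho U hU => h.fl_K w U ⟨hw, ho⟩ hU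
  fl_oc := fun w hw ho U hU => h.fl_oc w U ⟨hw, ho⟩ hU
  st_fl := fun w hw ho U hU => h.st_fl w U ⟨hw, ho⟩ hU

/-- the fillings which come from a family of places without conflicts -/
def Qts (Y : TS α σ) (D : FD Y.K Y.len Y.s σ) : Prop :=
  ∃ (L : Finset σ) (st : α → α) (fl : α → Finset σ → α) (h : Fill Y L st fl), Fam Y L ∧
    D = fdOf Y L st fl h

theorem few_ts (Y : TS α σ) {μ : ℝ} {φ : ℕ → ℝ} (hG : Gr Y μ φ) : Few Y.K Y.len Y.s σ μ (Qts Y) := by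
  obtain ⟨c₀, θ, C, hc₀, hθ, hθ1, hC, h⟩ :=
    Pool.Agent.N700.AC.few Pool.Agent.N547.EG.Sel.sel α σ Y μ φ hG
  refine ⟨c₀, θ, C, hc₀, hθ, hθ1, hC, fun N => ?_⟩
  obtain ⟨ι, i1, i2, Λ, h1, h2⟩ := h N
  have hb : ∀ i, ∃ (st : α → α) (fl : α → Finset σ → α), Fill Y (Λ i) st fl := fun i =>
    Pool.Agent.N607.EG.bij α σ Y (Λ i) (h1 i)
  choose st fl hf using hb
  exact ⟨ι, i1, i2, fun i => fdOf Y (Λ i) (st i) (fl i) (hf i),
    fun i => ⟨Λ i, st i, fl i, hf i, h1 i, rfl⟩, h2⟩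

theorem gr_ts (Y : TS α σ) {μ : ℝ} {φ : ℕ → ℝ} (hG : Gr Y μ φ) (p : ℕ) (x : ℝ) (hx : 0 ≤ x)
    (h : μ * x < 1) : Summable (fun n => (((Y.K n).card : ℝ) * ((n : ℝ) + 1) ^ p) * x ^ n) := by
  have h1 := Pool.Agent.N738.AC.grw α σ Y μ φ hG (fun w => ((Y.len w : ℝ) + 1) ^ p) 1 p zero_le_one
    (fun n w hw => ⟨by positivity, by rw [Y.len_K n w hw, one_mul]⟩) x hx h
  refine h1.congr fun n => ?_
  congr 1
  unfold aa
  have e : ∀ w ∈ Y.K n, ((Y.len w : ℝ) + 1) ^ p = ((n : ℝ) + 1) ^ p := fun w hw => by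
    rw [Y.len_K n w hw]
  rw [sum_congr rfl e, sum_const, nsmul_eq_mul]

/-- **Analytic continuation**, for systems of local moves -/
theorem ts_main (Y : TS α σ) {μ : ℝ} {φ : ℕ → ℝ} (hG : Gr Y μ φ) :
    ∃ c : ℝ, 0 < c ∧ ∀ (C₀ : ℝ) (p : ℕ), 0 ≤ C₀ → ∃ C : ℝ, 0 < C ∧ ∀ F : α → ℂ,
      (∀ L, Fam Y L → ∀ st fl, Fill Y L st fl → ∀ w, Em Y L w →
        RC (Pool.Agent.N929.EG.Sl Y L w) (fun U => F (fl w U)) (C₀ * ((Y.len w : ℝ) + 1) ^ p)) →
      ∃ f : ℂ → ℂ, DifferentiableOn ℂ f (Om c μ Y.s) ∧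
        (∀ z : ℂ, μ * ‖z‖ < 1 → HasSum (fun n => (∑ w ∈ Y.K n, F w) * z ^ n) (f z)) ∧
        ∀ z ∈ Om c μ Y.s, z ≠ 0 → cs Y.s z < 1 →
          Summable (fun n => aj Y.K C₀ p n * xx c μ Y.s z ^ n) ∧
          ‖f z‖ ≤ C + ∑' n, aj Y.K C₀ p n * xx c μ Y.s z ^ n := by
  obtain ⟨c, hc, h⟩ := main Y.hs Y.len_K hG.one (gr_ts Y hG) (few_ts Y hG)
  refine ⟨c, hc, fun C₀ p hC₀ => ?_⟩
  obtain ⟨C, hC, h'⟩ := h C₀ p hC₀
  refine ⟨C, hC, fun F hF => h' F ?_⟩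
  rintro D ⟨L, st, fl, hf, hL, rfl⟩ w hw ho
  exact hF L hL st fl hf w ⟨hw, ho⟩

/-- real representations are complex representations -/
theorem RC.ofRp {E : Finset σ} {Φ : Finset σ → ℝ} {M : ℝ} (h : Rp E Φ M) :
    RC E (fun U => ((Φ U : ℝ) : ℂ)) M := by
  obtain ⟨v, h1, h2⟩ := h
  refine ⟨fun T => (v T : ℂ), ?_, fun U hU => ?_⟩
  · refine le_trans (le_of_eq ?_) h1
    refine sum_congr rfl fun T _ => ?_
    rw [Complex.norm_real, Real.norm_eq_abs]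
  · show ((Φ U : ℝ) : ℂ) = _
    rw [h2 U hU, Complex.ofReal_sum]
    refine sum_congr rfl fun T _ => ?_
    split_ifs
    · rfl
    · exact Complex.ofReal_zero

end

end Pool.Agent.U198.AC
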